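import Mathlib

namespace Pool.Agent.X187.DP

open Filter Topology Set MeasureTheory Finset
open scoped Nat

/-- Poisson weights -/
noncomputable def P (m : ℝ) (i : ℕ) (t : ℝ) : ℝ := Real.exp (-(t * m)) * ((t * m) ^ i / (i ! : ℝ))

lemma P_zero (m t : ℝ) : P m 0 t = Real.exp (-(t * m)) := by simp [P]
lemma P_at_zero (m : ℝ) (i : ℕ) : P m (i + 1) 0 = 0 := by simp [P]
lemma P_zero_zero (m : ℝ) : P m 0 0 = 1 := by simp [P]

lemma P_deriv_zero (m t : ℝ) : HasDerivAt (P m 0) (-m * P m 0 t) t := by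
  have h1 : HasDerivAt (fun t : ℝ => Real.exp (-(t * m))) (Real.exp (-(t * m)) * (-m)) t := by
    have := ((hasDerivAt_id t).mul_const m).neg.exp
    simpa using this
  have h2 : P m 0 = fun t => Real.exp (-(t * m)) := by funext t; exact P_zero m t
  rw [h2]; convert! h1 using 1; ring

lemma P_deriv_succ (m t : ℝ) (i : ℕ) :
    HasDerivAt (P m (i + 1)) (m * P m i t - m * P m (i + 1) t) t := by
  have h1 : HasDerivAt (fun t : ℝ => Real.exp (-(t * m))) (Real.exp (-(t * m)) * (-m)) t := by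
    have := ((hasDerivAt_id t).mul_const m).neg.exp
    simpa using this
  have h2 : HasDerivAt (fun t : ℝ => (t * m) ^ (i + 1) / ((i + 1)! : ℝ))
      (((i + 1 : ℕ) : ℝ) * (t * m) ^ i * m / ((i + 1)! : ℝ)) t := by
    have := (((hasDerivAt_id t).mul_const m).pow (i + 1)).div_const ((i + 1)! : ℝ)
    simpa using this
  refine (h1.mul h2).congr_deriv ?_
  have h3 : ((i + 1)! : ℝ) = ((i : ℝ) + 1) * (i ! : ℝ) := by
    rw [Nat.factorial_succ]; push_cast; ring
  have h4 : (i ! : ℝ) ≠ 0 := by positivity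
  have h5 : ((i : ℝ) + 1) ≠ 0 := by positivity
  simp only [P, h3]
  push_cast
  field_simp
  ring

lemma P_cont (m : ℝ) (i : ℕ) : Continuous (P m i) := by unfold P; fun_prop

lemma P_nonneg {m t : ℝ} (hm : 0 ≤ m) (ht : 0 ≤ t) (i : ℕ) : 0 ≤ P m i t := by
  unfold P; positivity

lemma P_le_one {m t : ℝ} (hm : 0 ≤ m) (ht : 0 ≤ t) (i : ℕ) : P m i t ≤ 1 := by
  have h := Real.pow_div_factorial_le_exp (t * m) (by positivity) i
  unfold P
  rw [Real.exp_neg, inv_mul_le_iff₀ (Real.exp_pos _), mul_one]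
  exact h

/-- `Q i t = ∫₀ᵗ m P i s e^{-m(1-q)(t-s)} ds` -/
noncomputable def Q (m q : ℝ) : ℕ → ℝ → ℝ
  | 0, t => q⁻¹ * (Real.exp (-(t * (m * (1 - q)))) - P m 0 t)
  | (i + 1), t => q⁻¹ * (Q m q i t - P m (i + 1) t)

lemma Q_zero (m q t : ℝ) : Q m q 0 t = q⁻¹ * (Real.exp (-(t * (m * (1 - q)))) - P m 0 t) := rfl
lemma Q_succ (m q t : ℝ) (i : ℕ) : Q m q (i + 1) t = q⁻¹ * (Q m q i t - P m (i + 1) t) := rfl

lemma Q_at_zero (m q : ℝ) (i : ℕ) : Q m q i 0 = 0 := by
  induction i with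
  | zero => simp [Q_zero, P_zero_zero]
  | succ i ih => rw [Q_succ, ih, P_at_zero]; simp

lemma Q_deriv {q : ℝ} (hq : 0 < q) (m t : ℝ) (i : ℕ) :
    HasDerivAt (Q m q i) (m * P m i t - m * (1 - q) * Q m q i t) t := by
  induction i with
  | zero =>
    have h1 : HasDerivAt (fun t : ℝ => Real.exp (-(t * (m * (1 - q)))))
        (Real.exp (-(t * (m * (1 - q)))) * (-(m * (1 - q)))) t := by
      have := ((hasDerivAt_id t).mul_const (m * (1 - q))).neg.exp
      simpa using this
    have h2 := (h1.sub (P_deriv_zero m t)).const_mul q⁻¹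
    refine h2.congr_deriv ?_
    rw [Q_zero]
    field_simp
    ring
  | succ i ih =>
    have h2 := (ih.sub (P_deriv_succ m t i)).const_mul q⁻¹
    refine h2.congr_deriv ?_
    rw [Q_succ]
    field_simp
    ring

lemma Q_cont {q : ℝ} (hq : 0 < q) (m : ℝ) (i : ℕ) : Continuous (Q m q i) :=
  continuous_iff_continuousAt.2 fun t => (Q_deriv hq m t i).continuousAt

lemma deriv_sub {f : ℝ → ℝ} {f' t s : ℝ} (h : HasDerivAt f f' (t - s)) :
    HasDerivAt (fun s => f (t - s)) (-f') s := by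
  have := HasDerivAt.comp s h ((hasDerivAt_id s).const_sub t)
  rw [mul_neg_one] at this
  exact this

/-- (k0) -/
lemma int_Q {q : ℝ} (hq : 0 < q) (m t : ℝ) (i : ℕ) :
    ∫ s in (0 : ℝ)..t, m * P m i s * Real.exp (-((t - s) * (m * (1 - q)))) = Q m q i t := by
  have hd : ∀ s ∈ uIcc 0 t, HasDerivAt
      (fun s => Q m q i s * Real.exp (-((t - s) * (m * (1 - q)))))
      (m * P m i s * Real.exp (-((t - s) * (m * (1 - q))))) s := fun s _ => by
    have h1 : HasDerivAt (fun s : ℝ => Real.exp (-((t - s) * (m * (1 - q)))))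
        (Real.exp (-((t - s) * (m * (1 - q)))) * (m * (1 - q))) s := by
      have := (((hasDerivAt_id s).const_sub t).mul_const (m * (1 - q))).neg.exp
      simpa using this
    refine ((Q_deriv hq m s i).mul h1).congr_deriv ?_
    ring
  rw [intervalIntegral.integral_eq_sub_of_hasDerivAt hd
    (Continuous.intervalIntegrable (by have := P_cont m i; fun_prop) _ _), Q_at_zero]
  simp

/-- (k1) -/
lemma int_P0 (m t : ℝ) (i : ℕ) :
    ∫ s in (0 : ℝ)..t, m * P m i s * P m 0 (t - s) = P m (i + 1) t := by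
  have hd : ∀ s ∈ uIcc 0 t, HasDerivAt (fun s => P m (i + 1) s * P m 0 (t - s))
      (m * P m i s * P m 0 (t - s)) s := fun s _ => by
    refine ((P_deriv_succ m s i).mul (deriv_sub (P_deriv_zero m (t - s)))).congr_deriv ?_
    ring
  rw [intervalIntegral.integral_eq_sub_of_hasDerivAt hd
    (Continuous.intervalIntegrable (by have := P_cont m i; have := P_cont m 0; fun_prop) _ _),
    P_at_zero, sub_self, P_zero_zero]
  ring

/-- (k2) -/
lemma int_P1 (m t : ℝ) (i : ℕ) :
    ∫ s in (0 : ℝ)..t, m * P m i s * P m 1 (t - s) = P m (i + 2) t := by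
  have hd : ∀ s ∈ uIcc 0 t, HasDerivAt
      (fun s => P m (i + 1) s * P m 1 (t - s) + P m (i + 2) s * P m 0 (t - s))
      (m * P m i s * P m 1 (t - s)) s := fun s _ => by
    refine (((P_deriv_succ m s i).mul (deriv_sub (P_deriv_succ m (t - s) 0))).add
      ((P_deriv_succ m s (i + 1)).mul (deriv_sub (P_deriv_zero m (t - s))))).congr_deriv ?_
    simp only [zero_add]
    ring
  rw [intervalIntegral.integral_eq_sub_of_hasDerivAt hd
    (Continuous.intervalIntegrable (by have := P_cont m i; have := P_cont m 1; fun_prop) _ _),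
    P_at_zero, P_at_zero, sub_self, P_zero_zero, P_at_zero]
  ring

/-- (k7) -/
lemma int_Q0 {q : ℝ} (hq : 0 < q) (m t : ℝ) (i : ℕ) :
    ∫ s in (0 : ℝ)..t, m * P m i s * Q m q 0 (t - s) = Q m q (i + 1) t := by
  have h : ∀ s, m * P m i s * Q m q 0 (t - s)
      = q⁻¹ * (m * P m i s * Real.exp (-((t - s) * (m * (1 - q)))) - m * P m i s * P m 0 (t - s)) :=
    fun s => by rw [Q_zero]; ring
  simp only [h]
  have c1 := P_cont m i
  have c2 := P_cont m 0
  rw [intervalIntegral.integral_const_mul, intervalIntegral.integral_sub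
    (Continuous.intervalIntegrable (by fun_prop) _ _)
    (Continuous.intervalIntegrable (by fun_prop) _ _), int_Q hq, int_P0, Q_succ]

/-- (k3) -/
lemma int_Q1 {q : ℝ} (hq : 0 < q) (m t : ℝ) (i : ℕ) :
    ∫ s in (0 : ℝ)..t, m * P m i s * Q m q 1 (t - s) = Q m q (i + 2) t := by
  have h : ∀ s, m * P m i s * Q m q 1 (t - s)
      = q⁻¹ * (m * P m i s * Q m q 0 (t - s) - m * P m i s * P m 1 (t - s)) :=
    fun s => by rw [Q_succ, zero_add]; ring
  simp only [h]
  have c1 := P_cont m i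
  have c2 := P_cont m 1
  have c3 := Q_cont hq m 0
  rw [intervalIntegral.integral_const_mul, intervalIntegral.integral_sub
    (Continuous.intervalIntegrable (by fun_prop) _ _)
    (Continuous.intervalIntegrable (by fun_prop) _ _), int_Q0 hq, int_P1]
  rfl

lemma Q_nonneg {m q t : ℝ} (hm : 0 ≤ m) (hq : 0 < q) (ht : 0 ≤ t) (i : ℕ) : 0 ≤ Q m q i t := by
  rw [← int_Q hq]
  refine intervalIntegral.integral_nonneg ht fun s hs => ?_
  have := P_nonneg hm hs.1 i
  positivity

lemma int_P_le {m t : ℝ} (hm : 0 ≤ m) (ht : 0 ≤ t) (i : ℕ) :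
    ∫ s in (0 : ℝ)..t, m * P m i s ≤ 1 := by
  have hsum : ∀ i s, HasDerivAt (fun s => ∑ l ∈ range (i + 1), P m l s) (-(m * P m i s)) s := by
    intro i s
    induction i with
    | zero => simpa using P_deriv_zero m s
    | succ i ih =>
      have := ih.add (P_deriv_succ m s i)
      simp only [Finset.sum_range_succ _ (i + 1)]
      refine this.congr_deriv ?_
      ring
  have hd : ∀ s ∈ uIcc 0 t, HasDerivAt (fun s => -∑ l ∈ range (i + 1), P m l s)
      (m * P m i s) s := fun s _ => (hsum i s).neg.congr_deriv (by ring)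
  rw [intervalIntegral.integral_eq_sub_of_hasDerivAt hd
    (Continuous.intervalIntegrable (by have := P_cont m i; fun_prop) _ _)]
  have h0 : ∑ l ∈ range (i + 1), P m l 0 = 1 := by
    rw [Finset.sum_range_succ', P_zero_zero]
    simp [P_at_zero]
  have h1 : 0 ≤ ∑ l ∈ range (i + 1), P m l t := Finset.sum_nonneg fun l _ => P_nonneg hm ht l
  rw [h0]; linarith

lemma Q_le_one {m q t : ℝ} (hm : 0 ≤ m) (hq : 0 < q) (hq1 : q ≤ 1) (ht : 0 ≤ t) (i : ℕ) :
    Q m q i t ≤ 1 := by
  rw [← int_Q hq]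
  refine le_trans ?_ (int_P_le hm ht i)
  have c1 := P_cont m i
  refine intervalIntegral.integral_mono_on ht (Continuous.intervalIntegrable (by fun_prop) _ _)
    (Continuous.intervalIntegrable (by fun_prop) _ _) fun s hs => ?_
  have h1 := P_nonneg hm hs.1 i
  have h2 : Real.exp (-((t - s) * (m * (1 - q)))) ≤ 1 := by
    rw [Real.exp_le_one_iff]
    have := hs.2
    have : 0 ≤ (t - s) * (m * (1 - q)) :=
      mul_nonneg (by linarith) (mul_nonneg hm (by linarith))
    linarith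
  exact mul_le_of_le_one_right (mul_nonneg hm h1) h2

lemma Q_ge {m q t : ℝ} (hm : 0 ≤ m) (hq : 0 < q) (hq1 : q ≤ 1) (ht : 0 ≤ t) (R : ℕ) :
    ∀ i, q ^ R * ∑ r ∈ range R, P m (i + 1 + r) t ≤ Q m q i t := by
  induction R with
  | zero => intro i; simpa using Q_nonneg hm hq ht i
  | succ R ih =>
    intro i
    have h1 : Q m q i t = P m (i + 1) t + q * Q m q (i + 1) t := by
      rw [Q_succ]; field_simp; ring
    have h2 := ih (i + 1)
    have h3 : ∑ r ∈ range (R + 1), P m (i + 1 + r) t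
        = P m (i + 1) t + ∑ r ∈ range R, P m (i + 1 + 1 + r) t := by
      rw [Finset.sum_range_succ', add_comm]
      congr 1
      refine Finset.sum_congr rfl fun r _ => ?_
      congr 1; ring
    rw [h1, h3, mul_add]
    have h4 : q ^ (R + 1) ≤ 1 := pow_le_one₀ hq.le hq1
    have h5 := P_nonneg hm ht (i + 1)
    have h6 : q ^ (R + 1) * ∑ r ∈ range R, P m (i + 1 + 1 + r) t
        = q * (q ^ R * ∑ r ∈ range R, P m (i + 1 + 1 + r) t) := by ring
    rw [h6]
    have h7 : q ^ (R + 1) * P m (i + 1) t ≤ P m (i + 1) t := mul_le_of_le_one_left h5 h4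
    have h8 := mul_le_mul_of_nonneg_left h2 hq.le
    linarith

/-! ### Poisson sums -/

lemma hasSum_P (m t : ℝ) : HasSum (fun l => P m l t) 1 := by
  have h2 := (NormedSpace.exp_series_hasSum_exp' (𝕂 := ℝ) (t * m)).mul_left
    (Real.exp (-(t * m)))
  rw [← Real.exp_eq_exp_ℝ, ← Real.exp_add, neg_add_cancel, Real.exp_zero] at h2
  convert! h2 using 1
  funext n
  rw [smul_eq_mul, P]; ring

lemma hasSum_P_mul (m t : ℝ) : HasSum (fun l : ℕ => (l : ℝ) * P m l t) (t * m) := by
  rw [← hasSum_nat_add_iff' 1]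
  simp only [Finset.range_one, Finset.sum_singleton, Nat.cast_zero, zero_mul, sub_zero]
  have h := (hasSum_P m t).mul_left (t * m)
  rw [mul_one] at h
  convert! h using 1
  funext l
  simp only [P]
  have h3 : ((l + 1)! : ℝ) = ((l : ℝ) + 1) * (l ! : ℝ) := by
    rw [Nat.factorial_succ]; push_cast; ring
  rw [h3]
  push_cast
  field_simp
  ring

lemma hasSum_P_sq (m t : ℝ) :
    HasSum (fun l : ℕ => ((l : ℝ) - t * m) ^ 2 * P m l t) (t * m) := by
  have h1 : HasSum (fun l : ℕ => (l : ℝ) * (l - 1) * P m l t) ((t * m) * (t * m)) := by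
    rw [← hasSum_nat_add_iff' 1]
    simp only [Finset.range_one, Finset.sum_singleton, Nat.cast_zero, zero_mul, sub_zero]
    have h := (hasSum_P_mul m t).mul_left (t * m)
    convert! h using 1
    funext l
    simp only [P]
    have h3 : ((l + 1)! : ℝ) = ((l : ℝ) + 1) * (l ! : ℝ) := by
      rw [Nat.factorial_succ]; push_cast; ring
    rw [h3]
    push_cast
    field_simp
    ring
  have h2 := (h1.add ((hasSum_P_mul m t).mul_left (1 - 2 * (t * m)))).add
    ((hasSum_P m t).mul_left ((t * m) ^ 2))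
  convert! h2 using 1
  · funext l; ring
  · ring

/-- Chebyshev -/
lemma window {m t : ℝ} (hm : 0 ≤ m) (ht : 0 ≤ t) {d : ℝ} (hd : 0 < d) (a c : ℕ)
    (ha : (a : ℝ) ≤ t * m - d + 1) (hc : t * m + d ≤ c) :
    1 - t * m / d ^ 2 ≤ ∑ l ∈ Finset.Ico a c, P m l t := by
  have h1 := hasSum_P m t
  have h2 : HasSum (fun l => if l ∈ Finset.Ico a c then P m l t else 0)
      (∑ l ∈ Finset.Ico a c, P m l t) := by
    have h0 : ∑ l ∈ Finset.Ico a c, P m l t
        = ∑ l ∈ Finset.Ico a c, (if l ∈ Finset.Ico a c then P m l t else 0) :=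
      Finset.sum_congr rfl fun l hl => by rw [if_pos hl]
    rw [h0]
    exact hasSum_sum_of_ne_finset_zero fun l hl => if_neg hl
  have h3 := h2.add ((hasSum_P_sq m t).mul_left (d ^ 2)⁻¹)
  have hle : ∀ l, P m l t ≤ (if l ∈ Finset.Ico a c then P m l t else 0)
      + (d ^ 2)⁻¹ * (((l : ℝ) - t * m) ^ 2 * P m l t) := by
    intro l
    have hP := P_nonneg hm ht l
    split_ifs with hl
    · have : 0 ≤ (d ^ 2)⁻¹ * (((l : ℝ) - t * m) ^ 2 * P m l t) := by positivity
      linarith
    · have h5 : d ^ 2 ≤ ((l : ℝ) - t * m) ^ 2 := by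
        rw [Finset.mem_Ico, not_and_or, not_le, not_lt] at hl
        rcases hl with hl | hl
        · have : (l : ℝ) + 1 ≤ a := by exact_mod_cast hl
          nlinarith
        · have : (c : ℝ) ≤ l := by exact_mod_cast hl
          nlinarith
      rw [zero_add, ← mul_assoc]
      have h6 : 1 ≤ (d ^ 2)⁻¹ * ((l : ℝ) - t * m) ^ 2 := by
        rw [inv_mul_eq_div, one_le_div (by positivity)]; exact h5
      nlinarith
  have h4 := hasSum_le hle h1 h3
  rw [inv_mul_eq_div] at h4; linarith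

lemma P_step (m t : ℝ) (n : ℕ) : ((n : ℝ) + 1) * P m (n + 1) t = t * m * P m n t := by
  have h3 : ((n + 1)! : ℝ) = ((n : ℝ) + 1) * (n ! : ℝ) := by
    rw [Nat.factorial_succ]; push_cast; ring
  simp only [P, h3]
  field_simp
  ring

lemma P_local {m t : ℝ} (hm : 0 ≤ m) (ht : 0 ≤ t) {R : ℕ} (hR : 0 < R)
    (hx : 2 * (R : ℝ) ^ 2 ≤ t * m) (l : ℕ) : P m l t ≤ 2 / R := by
  set x := t * m with hxd
  have hR1 : (1 : ℝ) ≤ R := by exact_mod_cast hR
  have hx0 : 0 < x := by nlinarith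
  have hRx : (R : ℝ) ≤ x := by nlinarith
  set ρ : ℝ := 1 - R / x with hρ
  have hRx1 : (R : ℝ) / x ≤ 1 := by rw [div_le_one hx0]; exact hRx
  have hρ0 : 0 ≤ ρ := by rw [hρ]; linarith
  have hρ1 : ρ ≤ 1 := by rw [hρ]; have : 0 ≤ (R : ℝ) / x := by positivity
                         linarith
  have hρx : ρ * x = x - R := by rw [hρ]; field_simp
  have hp := fun n => P_nonneg hm ht n
  have hρR : ∀ r, r ≤ R → 1 / 2 ≤ ρ ^ r := by
    intro r hr
    have h1 : ρ ^ R ≤ ρ ^ r := pow_le_pow_of_le_one hρ0 hρ1 hr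
    have h2 := one_add_mul_le_pow (a := -(R : ℝ) / x) (by
      rw [neg_div]; linarith) R
    have h3 : 1 + -(R : ℝ) / x = ρ := by rw [hρ]; ring
    rw [h3] at h2
    have h4 : (R : ℝ) * (-(R : ℝ) / x) = -((R : ℝ) ^ 2 / x) := by ring
    rw [h4] at h2
    have h5 : (R : ℝ) ^ 2 / x ≤ 1 / 2 := by
      rw [div_le_div_iff₀ hx0 (by norm_num)]; linarith
    linarith
  have hup : ∀ n : ℕ, (n : ℝ) + 1 ≤ x + R → ρ * P m n t ≤ P m (n + 1) t := by
    intro n hn
    have h1 := P_step m t n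
    rw [← hxd] at h1
    have h2 : 0 < (n : ℝ) + 1 := by positivity
    have h3 : (((n : ℝ) + 1) * ρ) ≤ x := by
      have : ((n : ℝ) + 1) * ρ ≤ (x + R) * ρ := mul_le_mul_of_nonneg_right hn hρ0
      have h4 : (x + R) * ρ = x - R ^ 2 / x := by rw [hρ]; field_simp; ring
      have h5 : 0 ≤ (R : ℝ) ^ 2 / x := by positivity
      linarith
    have h6 : ((n : ℝ) + 1) * (ρ * P m n t) ≤ ((n : ℝ) + 1) * P m (n + 1) t := by
      rw [h1, ← mul_assoc]; exact mul_le_mul_of_nonneg_right h3 (hp n)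
    exact le_of_mul_le_mul_left h6 h2
  have hdn : ∀ n : ℕ, x - R ≤ (n : ℝ) + 1 → ρ * P m (n + 1) t ≤ P m n t := by
    intro n hn
    have h1 := P_step m t n
    rw [← hxd] at h1
    have h6 : x * (ρ * P m (n + 1) t) ≤ x * P m n t := by
      rw [← h1, ← mul_assoc, mul_comm x ρ, hρx]; exact mul_le_mul_of_nonneg_right hn (hp _)
    exact le_of_mul_le_mul_left h6 hx0
  have hup' : (l : ℝ) ≤ x → ∀ r, r ≤ R → ρ ^ r * P m l t ≤ P m (l + r) t := by
    intro hl r
    induction r with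
    | zero => intro _; simp
    | succ r ih =>
      intro hr
      have h1 := ih (by omega)
      have h2 := hup (l + r) (by
        have : (r : ℝ) + 1 ≤ R := by exact_mod_cast hr
        push_cast; linarith)
      calc ρ ^ (r + 1) * P m l t = ρ * (ρ ^ r * P m l t) := by ring
        _ ≤ ρ * P m (l + r) t := mul_le_mul_of_nonneg_left h1 hρ0
        _ ≤ P m (l + (r + 1)) t := h2
  have hdn' : ∀ r, r ≤ R → ∀ n : ℕ, x ≤ (n : ℝ) + r → ρ ^ r * P m (n + r) t ≤ P m n t := by
    intro r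
    induction r with
    | zero => intro _ n _; simp
    | succ r ih =>
      intro hr n hn
      have h1 := ih (by omega) (n + 1) (by push_cast at hn ⊢; linarith)
      have h2 := hdn n (by
        have : (r : ℝ) + 1 ≤ R := by exact_mod_cast hr
        push_cast at hn; linarith)
      have h3 : n + (r + 1) = n + 1 + r := by ring
      rw [h3]
      calc ρ ^ (r + 1) * P m (n + 1 + r) t = ρ * (ρ ^ r * P m (n + 1 + r) t) := by ring
        _ ≤ ρ * P m (n + 1) t := mul_le_mul_of_nonneg_left h1 hρ0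
        _ ≤ P m n t := h2
  have hsum : ∀ a : ℕ, ∑ i ∈ range R, P m (a + i) t ≤ 1 := by
    intro a
    have h1 := sum_le_hasSum (Finset.Ico a (a + R)) (fun n _ => hp n) (hasSum_P m t)
    rw [Finset.sum_Ico_eq_sum_range, Nat.add_sub_cancel_left] at h1
    exact h1
  have key : ∃ a : ℕ, ∀ i ∈ range R, 1 / 2 * P m l t ≤ P m (a + i) t := by
    rcases le_total (l : ℝ) x with hl | hl
    · refine ⟨l, fun i hi => ?_⟩
      rw [Finset.mem_range] at hi
      exact (mul_le_mul_of_nonneg_right (hρR i hi.le) (hp l)).trans (hup' hl i hi.le)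
    · have hlR : R ≤ l := by
        have : (R : ℝ) ≤ l := hRx.trans hl
        exact_mod_cast this
      refine ⟨l - (R - 1), fun i hi => ?_⟩
      rw [Finset.mem_range] at hi
      have h1 : l - (R - 1) + i + (R - 1 - i) = l := by omega
      have h2 := hdn' (R - 1 - i) (by omega) (l - (R - 1) + i) (by
        have : ((l - (R - 1) + i : ℕ) : ℝ) + ((R - 1 - i : ℕ) : ℝ) = l := by exact_mod_cast h1
        linarith)
      rw [h1] at h2
      exact (mul_le_mul_of_nonneg_right (hρR _ (by omega)) (hp l)).trans h2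
  obtain ⟨a, ha⟩ := key
  have h1 := (Finset.sum_le_sum ha).trans (hsum a)
  rw [Finset.sum_const, Finset.card_range, nsmul_eq_mul] at h1
  rw [le_div_iff₀ (by positivity)]
  linarith

end Pool.Agent.X187.DP
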