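import Pool.Agent.X187.DP.Dy
import Pool.Agent.X187.DP.Num

namespace Pool.Agent.X187.DP

open Filter Topology Set MeasureTheory
open scoped Nat

/-- the states -/
inductive St : Type
  | c (k j : ℕ) : St
  | s2 (k : ℕ) : St
  | s1 (k : ℕ) : St
  | s0 (k : ℕ) : St

/-- the block of a state -/
def sb : St → ℕ
  | .c k _ => k
  | .s2 k => k
  | .s1 k => k
  | .s0 k => k

@[simp] lemma sb_c (k j : ℕ) : sb (.c k j) = k := rfl
@[simp] lemma sb_s2 (k : ℕ) : sb (.s2 k) = k := rfl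
@[simp] lemma sb_s1 (k : ℕ) : sb (.s1 k) = k := rfl
@[simp] lemma sb_s0 (k : ℕ) : sb (.s0 k) = k := rfl

/-- rates -/
noncomputable def mm (k : ℕ) : ℝ := 32 * ((k : ℝ) + 1) ^ 2
/-- survival -/
noncomputable def qq (k : ℕ) : ℝ := 1 - 1 / (32 * ((k : ℝ) + 1))

lemma mm_pos (k : ℕ) : 0 < mm k := by unfold mm; positivity
lemma qq_ge (k : ℕ) : 31 / 32 ≤ qq k := by
  unfold qq
  have h : 1 / (32 * ((k : ℝ) + 1)) ≤ 1 / 32 := by
    apply one_div_le_one_div_of_le (by norm_num)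
    have : (0 : ℝ) ≤ k := Nat.cast_nonneg k
    linarith
  linarith
lemma qq_pos (k : ℕ) : 0 < qq k := lt_of_lt_of_le (by norm_num) (qq_ge k)
lemma qq_le (k : ℕ) : qq k ≤ 1 := by
  unfold qq
  have : (0 : ℝ) ≤ 1 / (32 * ((k : ℝ) + 1)) := by positivity
  linarith
lemma mm_qq (k : ℕ) : mm k * (1 - qq k) = k + 1 := by
  unfold mm qq; field_simp; ring

variable {E : Type} [NormedAddCommGroup E] [NormedSpace ℝ E] [PartialOrder E]
  [CompleteSpace E] (b : L1Basis St E)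

/-- values of `S` -/
noncomputable def Sv : St → E
  | .c _ 0 => 0
  | .c k (j + 1) => b.e (.c k j)
  | .s2 _ => 0
  | .s1 _ => 0
  | .s0 k => qq k • b.e (.s0 k)

/-- values of `L` -/
noncomputable def Lv : St → E
  | .c k _ => -b.e (.s2 k)
  | .s2 k => -b.e (.s1 k)
  | .s1 k => -b.e (.s0 k)
  | .s0 _ => 0

/-- the shift `S` -/
noncomputable def SS : E →L[ℝ] E := b.lift (Sv b)
/-- the operator `L` -/
noncomputable def LL : E →L[ℝ] E := b.lift (Lv b)

lemma norm_Sv (i : St) : ‖Sv b i‖ ≤ 1 := by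
  rcases i with ⟨k, _ | j⟩ | k | k | k
  · simp [Sv]
  · simp [Sv, b.norm_e]
  · simp [Sv]
  · simp [Sv]
  · simp only [Sv, norm_smul, b.norm_e, mul_one, Real.norm_of_nonneg (qq_pos k).le]
    exact qq_le k

lemma norm_Lv (i : St) : ‖Lv b i‖ ≤ 1 := by
  rcases i with ⟨k, j⟩ | k | k | k <;> simp [Lv, b.norm_e]

lemma e_nonneg {I : Type} (b : L1Basis I E) (i : I) : 0 ≤ b.e i := by
  rw [b.nonneg_iff]; intro j
  by_cases h : j = i
  · subst h; rw [b.c_e]; norm_num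
  · rw [b.c_ne j i h]

lemma smul_nn {I : Type} (b : L1Basis I E) {a : ℝ} (ha : 0 ≤ a) {x : E} (hx : 0 ≤ x) :
    0 ≤ a • x := by
  rw [b.nonneg_iff] at hx ⊢
  intro i; rw [map_smul]; exact mul_nonneg ha (hx i)

lemma SS_e (i : St) : SS b (b.e i) = Sv b i := b.lift_e (norm_Sv b) i
lemma LL_e (i : St) : LL b (b.e i) = Lv b i := b.lift_e (norm_Lv b) i

lemma SS_c0 (k : ℕ) : SS b (b.e (.c k 0)) = 0 := SS_e b _
lemma SS_cs (k j : ℕ) : SS b (b.e (.c k (j + 1))) = b.e (.c k j) := SS_e b _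
lemma SS_s2 (k : ℕ) : SS b (b.e (.s2 k)) = 0 := SS_e b _
lemma SS_s1 (k : ℕ) : SS b (b.e (.s1 k)) = 0 := SS_e b _
lemma SS_s0 (k : ℕ) : SS b (b.e (.s0 k)) = qq k • b.e (.s0 k) := SS_e b _
lemma LL_c (k j : ℕ) : LL b (b.e (.c k j)) = -b.e (.s2 k) := LL_e b _
lemma LL_s2 (k : ℕ) : LL b (b.e (.s2 k)) = -b.e (.s1 k) := LL_e b _
lemma LL_s1 (k : ℕ) : LL b (b.e (.s1 k)) = -b.e (.s0 k) := LL_e b _
lemma LL_s0 (k : ℕ) : LL b (b.e (.s0 k)) = 0 := LL_e b _

lemma norm_SS (x : E) : ‖SS b x‖ ≤ ‖x‖ := by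
  have := b.norm_le_of_e (SS b) (C := 1) (fun i => by rw [SS_e]; exact norm_Sv b i) x
  rwa [one_mul] at this

lemma pos_SS (x : E) (hx : 0 ≤ x) : 0 ≤ SS b x := by
  refine b.nonneg_of_e _ (fun i => ?_) hx
  rw [SS_e]
  rcases i with ⟨k, _ | j⟩ | k | k | k
  · exact le_rfl
  · exact e_nonneg b _
  · exact le_rfl
  · exact le_rfl
  · exact smul_nn b (qq_pos k).le (e_nonneg b _)

lemma Pi_pos {k : ℕ} {i : St} (h : sb i = k) : Pi b sb k (b.e i) = b.e i := by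
  rw [Pi_e, if_pos h]
lemma Pi_neg {k : ℕ} {i : St} (h : sb i ≠ k) : Pi b sb k (b.e i) = 0 := by
  rw [Pi_e, if_neg h]

lemma comm_of {A : E →L[ℝ] E} (h1 : ∀ k i, sb i = k → Pi b sb k (A (b.e i)) = A (b.e i))
    (h2 : ∀ k i, sb i ≠ k → Pi b sb k (A (b.e i)) = 0)
    (k : ℕ) : Commute (Pi b sb k) A := by
  refine b.ext_e fun i => ?_
  rw [mul_apply_eq_comp, mul_apply_eq_comp]
  by_cases h : sb i = k
  · rw [h1 k i h, Pi_pos b h]
  · rw [h2 k i h, Pi_neg b h, map_zero]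

lemma cSS (k : ℕ) : Commute (Pi b sb k) (SS b) := by
  refine comm_of b (fun k i hk => ?_) (fun k i hk => ?_) k
  · rw [SS_e]
    rcases i with ⟨k', _ | j⟩ | k' | k' | k' <;> simp only [Sv, map_zero, map_smul]
    · exact Pi_pos b hk
    · rw [Pi_pos b hk]
  · rw [SS_e]
    rcases i with ⟨k', _ | j⟩ | k' | k' | k' <;> simp only [Sv, map_zero, map_smul]
    · exact Pi_neg b hk
    · rw [Pi_neg b hk, smul_zero]

lemma cLL (k : ℕ) : Commute (Pi b sb k) (LL b) := by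
  refine comm_of b (fun k i hk => ?_) (fun k i hk => ?_) k
  · rw [LL_e]
    rcases i with ⟨k', j⟩ | k' | k' | k' <;> simp only [Lv, map_neg, map_zero]
    · rw [Pi_pos b (i := .s2 k') hk]
    · rw [Pi_pos b (i := .s1 k') hk]
    · rw [Pi_pos b (i := .s0 k') hk]
  · rw [LL_e]
    rcases i with ⟨k', j⟩ | k' | k' | k' <;> simp only [Lv, map_neg, map_zero]
    · rw [Pi_neg b (i := .s2 k') hk, neg_zero]
    · rw [Pi_neg b (i := .s1 k') hk, neg_zero]
    · rw [Pi_neg b (i := .s0 k') hk, neg_zero]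

/-- `B' = L (S - 1)` on basis vectors -/
lemma B_c0 (k : ℕ) : LL b ((SS b - 1) (b.e (.c k 0))) = b.e (.s2 k) := by
  rw [sub_apply, one_apply_eq_self, SS_c0, zero_sub, map_neg, LL_c, neg_neg]
lemma B_cs (k j : ℕ) : LL b ((SS b - 1) (b.e (.c k (j + 1)))) = 0 := by
  rw [sub_apply, one_apply_eq_self, SS_cs, map_sub, LL_c, LL_c, sub_self]
lemma B_s2 (k : ℕ) : LL b ((SS b - 1) (b.e (.s2 k))) = b.e (.s1 k) := by
  rw [sub_apply, one_apply_eq_self, SS_s2, zero_sub, map_neg, LL_s2, neg_neg]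
lemma B_s1 (k : ℕ) : LL b ((SS b - 1) (b.e (.s1 k))) = b.e (.s0 k) := by
  rw [sub_apply, one_apply_eq_self, SS_s1, zero_sub, map_neg, LL_s1, neg_neg]
lemma B_s0 (k : ℕ) : LL b ((SS b - 1) (b.e (.s0 k))) = 0 := by
  rw [sub_apply, one_apply_eq_self, SS_s0, map_sub, map_smul, LL_s0, smul_zero, sub_zero]

lemma pB (x : E) (hx : 0 ≤ x) : 0 ≤ LL b ((SS b - 1) x) := by
  refine b.nonneg_of_e ((LL b).comp (SS b - 1)) (fun i => ?_) hx
  rw [ContinuousLinearMap.comp_apply]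
  rcases i with ⟨k, _ | j⟩ | k | k | k
  · rw [B_c0]; exact e_nonneg b _
  · rw [B_cs]
  · rw [B_s2]; exact e_nonneg b _
  · rw [B_s1]; exact e_nonneg b _
  · rw [B_s0]

lemma pow_s2 (k n : ℕ) : (SS b ^ (n + 1)) (b.e (.s2 k)) = 0 := by
  rw [pow_succ, mul_apply_eq_comp, SS_s2, map_zero]
lemma pow_s1 (k n : ℕ) : (SS b ^ (n + 1)) (b.e (.s1 k)) = 0 := by
  rw [pow_succ, mul_apply_eq_comp, SS_s1, map_zero]
lemma pow_s0 (k n : ℕ) : (SS b ^ n) (b.e (.s0 k)) = qq k ^ n • b.e (.s0 k) := by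
  induction n with
  | zero => simp
  | succ n ih => rw [pow_succ, mul_apply_eq_comp, SS_s0, map_smul, ih, smul_smul, pow_succ, mul_comm]
lemma pow_c (k j n : ℕ) : (SS b ^ n) (b.e (.c k j)) = if n ≤ j then b.e (.c k (j - n)) else 0 := by
  induction n generalizing j with
  | zero => simp
  | succ n ih =>
    rw [pow_succ, mul_apply_eq_comp]
    rcases j with _ | j
    · rw [SS_c0, map_zero, if_neg (by omega)]
    · rw [SS_cs, ih]
      by_cases h : n ≤ j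
      · rw [if_pos h, if_pos (by omega)]; congr 2; omega
      · rw [if_neg h, if_neg (by omega)]

section
variable {G : E →L[ℝ] E} {a : ℕ → ℝ} (h : IsPS (SS b) a G)
include h

lemma G_s2 (k : ℕ) : G (b.e (.s2 k)) = a 0 • b.e (.s2 k) := by
  refine (h.apply _).unique ?_
  have := hasSum_single (f := fun n => a n • (SS b ^ n) (b.e (.s2 k))) 0 (fun n hn => by
    obtain ⟨n, rfl⟩ := Nat.exists_eq_succ_of_ne_zero hn
    rw [Nat.succ_eq_add_one, pow_s2, smul_zero])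
  simpa using this

lemma G_s1 (k : ℕ) : G (b.e (.s1 k)) = a 0 • b.e (.s1 k) := by
  refine (h.apply _).unique ?_
  have := hasSum_single (f := fun n => a n • (SS b ^ n) (b.e (.s1 k))) 0 (fun n hn => by
    obtain ⟨n, rfl⟩ := Nat.exists_eq_succ_of_ne_zero hn
    rw [Nat.succ_eq_add_one, pow_s1, smul_zero])
  simpa using this

lemma G_s0 (k : ℕ) {C : ℝ} (hC : HasSum (fun n => a n * qq k ^ n) C) :
    G (b.e (.s0 k)) = C • b.e (.s0 k) := by
  refine (h.apply _).unique ?_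
  have := hC.smul_const (b.e (.s0 k))
  simpa only [pow_s0, smul_smul] using this

lemma BG_s0 (k : ℕ) : LL b ((SS b - 1) (G (b.e (.s0 k)))) = 0 := by
  have h1 := HasSum.mapL ((LL b).comp (SS b - 1)) (h.apply (b.e (.s0 k)))
  refine h1.unique ?_
  have : ∀ n, ((LL b).comp (SS b - 1)) (a n • (SS b ^ n) (b.e (.s0 k))) = 0 := fun n => by
    rw [pow_s0, map_smul, map_smul, ContinuousLinearMap.comp_apply, B_s0, smul_zero, smul_zero]
  simp only [this]
  exact hasSum_zero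

lemma BG_c (k j : ℕ) : LL b ((SS b - 1) (G (b.e (.c k j)))) = a j • b.e (.s2 k) := by
  have h1 := HasSum.mapL ((LL b).comp (SS b - 1)) (h.apply (b.e (.c k j)))
  refine h1.unique ?_
  have h2 := hasSum_single
    (f := fun n => ((LL b).comp (SS b - 1)) (a n • (SS b ^ n) (b.e (.c k j)))) j (fun n hn => by
      rw [map_smul, pow_c]
      split_ifs with h
      · obtain ⟨r, hr⟩ := Nat.exists_eq_succ_of_ne_zero (show j - n ≠ 0 by omega)
        rw [hr, ContinuousLinearMap.comp_apply, Nat.succ_eq_add_one, B_cs, smul_zero]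
      · rw [map_zero, smul_zero])
  convert! h2 using 1
  rw [map_smul, pow_c, if_pos le_rfl, Nat.sub_self, ContinuousLinearMap.comp_apply, B_c0]

lemma BG_s2 (k : ℕ) : LL b ((SS b - 1) (G (b.e (.s2 k)))) = a 0 • b.e (.s1 k) := by
  rw [G_s2 b h, map_smul, map_smul, B_s2]

lemma BG_s1 (k : ℕ) : LL b ((SS b - 1) (G (b.e (.s1 k)))) = a 0 • b.e (.s0 k) := by
  rw [G_s1 b h, map_smul, map_smul, B_s1]

end

/-- nilpotency of `B (l - T)⁻¹` -/
lemma nK (l : ℝ) (hl : l > 0) :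
    ∃ n, ((LL b).comp (l • Rg b sb mm (SS b) l - ContinuousLinearMap.id ℝ E)) ^ n = 0 := by
  set K := (LL b).comp (l • Rg b sb mm (SS b) l - ContinuousLinearMap.id ℝ E) with hK
  have hm : ∀ k, 0 ≤ mm k := fun k => (mm_pos k).le
  have h0 : ∀ i, K (b.e i)
      = mm (sb i) • LL b ((SS b - 1) (Rs (SS b) (mm (sb i)) l (b.e i))) := fun i => by
    have := Rs_right (norm_SS b) (hm (sb i)) hl (b.e i)
    rw [hK, ContinuousLinearMap.comp_apply, sub_apply, smul_apply, ContinuousLinearMap.id_apply,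
      Rg_e hm (norm_SS b) (cSS b) hl]
    rw [sub_eq_iff_eq_add, ← sub_eq_iff_eq_add'] at this
    rw [this, smul_apply, map_smul]
  have hps := fun k => Rs_isPS (norm_SS b) (hm k) hl
  have k0 : ∀ k, K (b.e (.s0 k)) = 0 := fun k => by
    rw [h0, BG_s0 b (hps _), smul_zero]
  have k1 : ∀ k, ∃ α : ℝ, K (b.e (.s1 k)) = α • b.e (.s0 k) := fun k => by
    rw [h0, BG_s1 b (hps _), smul_smul]; exact ⟨_, rfl⟩
  have k2 : ∀ k, ∃ α : ℝ, K (b.e (.s2 k)) = α • b.e (.s1 k) := fun k => by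
    rw [h0, BG_s2 b (hps _), smul_smul]; exact ⟨_, rfl⟩
  have k3 : ∀ k j, ∃ α : ℝ, K (b.e (.c k j)) = α • b.e (.s2 k) := fun k j => by
    rw [h0, BG_c b (hps _), smul_smul]; exact ⟨_, rfl⟩
  have j1 : ∀ k, K (K (b.e (.s1 k))) = 0 := fun k => by
    obtain ⟨α, h⟩ := k1 k; rw [h, map_smul, k0, smul_zero]
  have j2 : ∀ k, K (K (K (b.e (.s2 k)))) = 0 := fun k => by
    obtain ⟨α, h⟩ := k2 k; rw [h, map_smul, map_smul, j1, smul_zero]
  have j3 : ∀ k j, K (K (K (K (b.e (.c k j))))) = 0 := fun k j => by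
    obtain ⟨α, h⟩ := k3 k j; rw [h, map_smul, map_smul, map_smul, j2, smul_zero]
  refine ⟨4, b.ext_e fun i => ?_⟩
  have h4 : (K ^ 4) (b.e i) = K (K (K (K (b.e i)))) := rfl
  rw [h4, zero_apply]
  rcases i with ⟨k, j⟩ | k | k | k
  · exact j3 k j
  · rw [j2, map_zero]
  · rw [j1, map_zero, map_zero]
  · rw [k0, map_zero, map_zero, map_zero]

end Pool.Agent.X187.DP
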