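import Pool.Agent.X187.DP.Wd

namespace Pool.Agent.X187.DP

open Filter Topology Set MeasureTheory
open scoped Nat

variable {E : Type} [NormedAddCommGroup E] [NormedSpace ℝ E] [PartialOrder E]
  [CompleteSpace E] (b : L1Basis St E)

omit [PartialOrder E] [CompleteSpace E] in
lemma compact_rankOne (f : E →L[ℝ] ℝ) (v : E) : IsCompactOperator (f.smulRight v) := by
  have h1 : IsCompactOperator (f : E → ℝ) := by
    have : IsCompactOperator (id : ℝ → ℝ) := isCompactOperator_id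
    exact this.comp_clm f
  have h2 := h1.clm_comp ((ContinuousLinearMap.id ℝ ℝ).smulRight v)
  exact h2

omit [PartialOrder E] [CompleteSpace E] in
lemma compact_sum {ι : Type} (s : Finset ι) (F : ι → E →L[ℝ] E)
    (h : ∀ i ∈ s, IsCompactOperator (F i)) : IsCompactOperator (∑ i ∈ s, F i : E →L[ℝ] E) := by
  classical
  induction s using Finset.induction_on with
  | empty => simpa using isCompactOperator_zero
  | insert a s ha ih =>
    rw [Finset.sum_insert ha]
    exact (h a (Finset.mem_insert_self a s)).add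
      (ih fun i hi => h i (Finset.mem_insert_of_mem hi))

/-- finite-rank pieces -/
noncomputable def Fk (A : E →L[ℝ] E) (k : ℕ) : E →L[ℝ] E :=
  ((b.c (.s2 k)).comp A).smulRight (b.e (.s2 k)) +
    (((b.c (.s1 k)).comp A).smulRight (b.e (.s1 k)) +
      ((b.c (.s0 k)).comp A).smulRight (b.e (.s0 k)))

/-- the target of a state -/
def tg : St → St
  | .c k _ => .s2 k
  | .s2 k => .s1 k
  | .s1 k => .s0 k
  | .s0 k => .s0 k

lemma Fk_e {A : E →L[ℝ] E} {α : St → ℝ} (hA : ∀ i, A (b.e i) = α i • b.e (tg i)) (k : ℕ) (i : St) :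
    Fk b A k (b.e i) = if k = sb i then A (b.e i) else 0 := by
  have h1 : Fk b A k (b.e i) = (b.c (.s2 k) (A (b.e i))) • b.e (.s2 k) +
    ((b.c (.s1 k) (A (b.e i))) • b.e (.s1 k) + (b.c (.s0 k) (A (b.e i))) • b.e (.s0 k)) := rfl
  by_cases h : k = sb i
  · rw [if_pos h, h1, hA]
    simp only [map_smul, smul_eq_mul]
    subst h
    rcases i with ⟨k', j⟩ | k' | k' | k'
    · simp only [tg, sb_c]
      rw [b.c_ne (.s1 k') (.s2 k') (by simp), b.c_ne (.s0 k') (.s2 k') (by simp), b.c_e]; simp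
    · simp only [tg, sb_s2]
      rw [b.c_ne (.s2 k') (.s1 k') (by simp), b.c_ne (.s0 k') (.s1 k') (by simp), b.c_e]; simp
    · simp only [tg, sb_s1]
      rw [b.c_ne (.s2 k') (.s0 k') (by simp), b.c_ne (.s1 k') (.s0 k') (by simp), b.c_e]; simp
    · simp only [tg, sb_s0]
      rw [b.c_ne (.s2 k') (.s0 k') (by simp), b.c_ne (.s1 k') (.s0 k') (by simp), b.c_e]; simp
  · rw [if_neg h, h1, hA]
    simp only [map_smul, smul_eq_mul]
    have hs : ∀ i' : St, sb i' = sb i → ∀ i'' : St, sb i'' = k → b.c i'' (b.e i') = 0 :=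
      fun i' h' i'' h'' => b.c_ne _ _ (by
        rintro rfl; exact h (h''.symm.trans h'))
    have ht : sb (tg i) = sb i := by rcases i with ⟨k', j⟩ | k' | k' | k' <;> rfl
    rw [hs _ ht _ rfl, hs _ ht _ rfl, hs _ ht _ rfl]; simp

theorem compact_of {A : E →L[ℝ] E} {α : St → ℝ} (hA : ∀ i, A (b.e i) = α i • b.e (tg i))
    (hε : ∀ δ > 0, ∃ N : ℕ, ∀ i, N ≤ sb i → ‖A (b.e i)‖ ≤ δ) : IsCompactOperator A := by
  have h1 : Tendsto (fun n => ∑ k ∈ Finset.range n, Fk b A k) atTop (𝓝 A) := by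
    rw [Metric.tendsto_atTop]
    intro δ hδ
    obtain ⟨N, hN⟩ := hε (δ / 2) (by positivity)
    refine ⟨N, fun n hn => ?_⟩
    rw [dist_eq_norm]
    refine lt_of_le_of_lt (ContinuousLinearMap.opNorm_le_bound _ (by positivity : 0 ≤ δ / 2)
      fun x => b.norm_le_of_e _ (fun i => ?_) x) (by linarith)
    rw [sub_apply, sum_apply]
    simp only [Fk_e b hA]
    rw [Finset.sum_ite_eq']
    split_ifs with h
    · rw [sub_self, norm_zero]; positivity
    · rw [Finset.mem_range, not_lt] at h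
      rw [zero_sub, norm_neg]
      exact hN i (hn.trans h)
  refine isCompactOperator_of_tendsto h1 (Eventually.of_forall fun n => ?_)
  refine compact_sum _ _ fun k _ => ?_
  exact (compact_rankOne _ _).add ((compact_rankOne _ _).add (compact_rankOne _ _))

lemma small {t : ℝ} (ht : 0 < t) {δ : ℝ} (hδ : 0 < δ) :
    ∃ N : ℕ, ∀ k, N ≤ k → (∀ l, P (mm k) l t ≤ δ) ∧ Q (mm k) (qq k) 0 t ≤ δ := by
  obtain ⟨R, hR⟩ := exists_nat_gt (2 / δ)
  have hR0 : 0 < R := by
    have : (0 : ℝ) < R := lt_trans (by positivity) hR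
    exact_mod_cast this
  obtain ⟨N1, hN1⟩ := exists_nat_gt (2 * (R : ℝ) ^ 2 / t)
  obtain ⟨N2, hN2⟩ := exists_nat_gt (2 / (δ * t))
  refine ⟨max N1 N2, fun k hk => ⟨fun l => ?_, ?_⟩⟩
  · have hk1 : (N1 : ℝ) ≤ k := by exact_mod_cast (le_max_left _ _).trans hk
    have h1 : 2 * (R : ℝ) ^ 2 ≤ t * mm k := by
      have h2 : 2 * (R : ℝ) ^ 2 < k * t := by
        rw [div_lt_iff₀ ht] at hN1
        nlinarith
      have h3 : (k : ℝ) ≤ mm k := by
        unfold mm
        have : (0 : ℝ) ≤ k := Nat.cast_nonneg k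
        nlinarith
      nlinarith
    refine (P_local (mm_pos k).le ht.le hR0 h1 l).trans ?_
    rw [div_le_iff₀ (by positivity)]
    rw [div_lt_iff₀ hδ] at hR
    linarith
  · have hk2 : (N2 : ℝ) ≤ k := by exact_mod_cast (le_max_right _ _).trans hk
    rw [Q_zero, mm_qq]
    have hq := qq_ge k
    have hP := P_nonneg (mm_pos k).le ht.le 0
    have hx : 2 / δ < t * (k + 1) := by
      rw [div_lt_iff₀ (by positivity)] at hN2
      rw [div_lt_iff₀ hδ]
      nlinarith
    have hexp : Real.exp (-(t * ((k : ℝ) + 1))) ≤ δ / 2 := by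
      rw [Real.exp_neg]
      have h1 : 2 / δ ≤ Real.exp (t * ((k : ℝ) + 1)) := by
        have := Real.add_one_le_exp (t * ((k : ℝ) + 1))
        linarith
      calc (Real.exp (t * ((k : ℝ) + 1)))⁻¹ ≤ (2 / δ)⁻¹ := inv_anti₀ (by positivity) h1
        _ = δ / 2 := by rw [inv_div]
    have hqi : (qq k)⁻¹ ≤ 2 := by
      rw [inv_le_comm₀ (qq_pos k) (by norm_num)]; linarith
    have hqp : 0 < (qq k)⁻¹ := inv_pos.2 (qq_pos k)
    have h5 : Real.exp (-(t * ((k : ℝ) + 1))) - P (mm k) 0 t ≤ δ / 2 := by linarith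
    calc (qq k)⁻¹ * (Real.exp (-(t * ((k : ℝ) + 1))) - P (mm k) 0 t) ≤ (qq k)⁻¹ * (δ / 2) :=
          mul_le_mul_of_nonneg_left h5 hqp.le
      _ ≤ 2 * (δ / 2) := mul_le_mul_of_nonneg_right hqi (by positivity)
      _ = δ := by ring

theorem compact_W1 {t : ℝ} (ht : 0 ≤ t) : IsCompactOperator (WW b 1 t) := by
  have hmx : max t 0 = t := max_eq_left ht
  have hA : ∀ i, WW b 1 t (b.e i) = (match i with
      | .c k j => P (mm k) (j + 1) t
      | .s2 k => P (mm k) 1 t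
      | .s1 k => Q (mm k) (qq k) 0 t
      | .s0 _ => 0 : ℝ) • b.e (tg i) := fun i => by
    rw [WW_e]
    rcases i with ⟨k, j⟩ | k | k | k <;> simp only [Wv, tg, hmx, zero_smul]
  refine compact_of b hA fun δ hδ => ?_
  rcases ht.eq_or_lt with h0 | h0
  · subst h0
    refine ⟨0, fun i _ => ?_⟩
    rw [hA, norm_smul, b.norm_e, mul_one]
    rcases i with ⟨k, j⟩ | k | k | k
    · simp only [P_at_zero, norm_zero]; exact hδ.le
    · have := P_at_zero (mm k) 0
      rw [zero_add] at this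
      simp only [this, norm_zero]; exact hδ.le
    · simp only [Q_at_zero, norm_zero]; exact hδ.le
    · simp only [norm_zero]; exact hδ.le
  · obtain ⟨N, hN⟩ := small h0 hδ
    refine ⟨N, fun i hi => ?_⟩
    rw [hA, norm_smul, b.norm_e, mul_one]
    rcases i with ⟨k, j⟩ | k | k | k
    · simp only []
      rw [Real.norm_of_nonneg (P_nonneg (mm_pos k).le ht _)]
      exact (hN k hi).1 _
    · simp only []
      rw [Real.norm_of_nonneg (P_nonneg (mm_pos k).le ht _)]
      exact (hN k hi).1 _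
    · simp only []
      rw [Real.norm_of_nonneg (Q_nonneg (mm_pos k).le (qq_pos k) ht _)]
      exact (hN k hi).2
    · simp only [norm_zero]; exact hδ.le

lemma Q_big (k : ℕ) : 1 / 4 ≤ Q (mm k) (qq k) (32 * (k + 1) ^ 2 - 8 * (k + 1) - 1) 1 := by
  have hi : 32 * (k + 1) ^ 2 - 8 * (k + 1) - 1 + 1 + 8 * (k + 1) = 32 * (k + 1) ^ 2 := by
    have : 8 * (k + 1) + 1 ≤ 32 * (k + 1) ^ 2 := by nlinarith
    omega
  set i := 32 * (k + 1) ^ 2 - 8 * (k + 1) - 1 with hidef
  have h1 := Q_ge (mm_pos k).le (qq_pos k) (qq_le k) zero_le_one (16 * (k + 1)) i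
  have hir : ((i : ℝ) + 1) + 8 * ((k : ℝ) + 1) = 32 * ((k : ℝ) + 1) ^ 2 := by exact_mod_cast hi
  have h2 := window (mm_pos k).le zero_le_one (d := 8 * ((k : ℝ) + 1)) (by positivity)
    (i + 1) (i + 1 + 16 * (k + 1)) (by
      unfold mm; push_cast; linarith) (by
      unfold mm; push_cast; linarith)
  have h3 : 1 - 1 * mm k / (8 * ((k : ℝ) + 1)) ^ 2 = 1 / 2 := by
    unfold mm; field_simp; ring
  rw [h3, Finset.sum_Ico_eq_sum_range, Nat.add_sub_cancel_left] at h2
  have h4 : 1 / 2 ≤ qq k ^ (16 * (k + 1)) := by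
    have h5 := one_add_mul_le_pow (a := -(1 / (32 * ((k : ℝ) + 1)))) (by
      have : 1 / (32 * ((k : ℝ) + 1)) ≤ 1 := by
        rw [div_le_one (by positivity)]
        have : (0 : ℝ) ≤ k := Nat.cast_nonneg k
        linarith
      linarith) (16 * (k + 1))
    have h6 : 1 + -(1 / (32 * ((k : ℝ) + 1))) = qq k := by unfold qq; ring
    rw [h6] at h5
    refine le_trans (le_of_eq ?_) h5
    push_cast
    field_simp
    ring
  calc (1 / 4 : ℝ) = 1 / 2 * (1 / 2) := by norm_num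
    _ ≤ qq k ^ (16 * (k + 1)) * ∑ r ∈ Finset.range (16 * (k + 1)), P (mm k) (i + 1 + r) 1 :=
        mul_le_mul h4 h2 (by norm_num) (pow_nonneg (qq_pos k).le _)
    _ ≤ _ := h1

theorem not_compact_W3 : ¬ IsCompactOperator (WW b 3 1) := by
  intro hc
  obtain ⟨K, hK, hsub⟩ := hc.image_closedBall_subset_compact 1
  set J : ℕ → ℕ := fun k => 32 * (k + 1) ^ 2 - 8 * (k + 1) - 3 with hJ
  have hJ2 : ∀ k, J k + 2 = 32 * (k + 1) ^ 2 - 8 * (k + 1) - 1 := fun k => by
    have : 8 * (k + 1) + 3 ≤ 32 * (k + 1) ^ 2 := by nlinarith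
    simp only [hJ]; omega
  set y : ℕ → E := fun k => WW b 3 1 (b.e (.c k (J k))) with hy
  have hyv : ∀ k, y k = Q (mm k) (qq k) (J k + 2) 1 • b.e (.s0 k) := fun k => by
    rw [hy]; simp only [WW_e, Wv, max_eq_left (zero_le_one' ℝ)]
  have hyK : ∀ k, y k ∈ K := fun k => hsub ⟨_, by
    rw [mem_closedBall_zero_iff, b.norm_e], rfl⟩
  obtain ⟨a, _, ψ, hψ, hlim⟩ := hK.tendsto_subseq hyK
  have hcs := hlim.cauchySeq
  rw [Metric.cauchySeq_iff'] at hcs
  obtain ⟨N, hN⟩ := hcs (1 / 4) (by norm_num)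
  have h1 := hN (N + 1) (by omega)
  have hne : ψ (N + 1) ≠ ψ N := (hψ (by omega : N < N + 1)).ne'
  rw [Function.comp_apply, Function.comp_apply, dist_eq_norm] at h1
  have h2 := b.abs_c_le (.s0 (ψ (N + 1))) (y (ψ (N + 1)) - y (ψ N))
  have h3 : b.c (.s0 (ψ (N + 1))) (y (ψ (N + 1)) - y (ψ N))
      = Q (mm (ψ (N + 1))) (qq (ψ (N + 1))) (J (ψ (N + 1)) + 2) 1 := by
    rw [hyv, hyv, map_sub, map_smul, map_smul, b.c_e, b.c_ne _ _ (by simpa using hne)]
    simp
  rw [h3, hJ2] at h2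
  have h4 := Q_big (ψ (N + 1))
  have h5 := le_abs_self
    (Q (mm (ψ (N + 1))) (qq (ψ (N + 1))) (32 * (ψ (N + 1) + 1) ^ 2 - 8 * (ψ (N + 1) + 1) - 1) 1)
  linarith

omit [PartialOrder E] [CompleteSpace E] in
theorem weaklyCompact_of {A : E →L[ℝ] E} (h : IsCompactOperator A) : WeaklyCompactOp A := by
  intro s hs
  obtain ⟨r, hr⟩ := hs.subset_closedBall 0
  obtain ⟨K, hK, hsub⟩ := h.image_closedBall_subset_compact r
  have h1 : IsCompact (toWeakSpace ℝ E '' K) := hK.image (toWeakSpaceCLM ℝ E).continuous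
  exact h1.closure_of_subset (image_mono ((image_mono hr).trans hsub))

end Pool.Agent.X187.DP
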