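import Mathlib

/-! Dyson–Phillips terms for unbounded positive perturbations: the setting. -/

namespace Pool.Agent.X187.DP

open Filter Topology Set MeasureTheory

section

variable {E : Type} [NormedAddCommGroup E] [NormedSpace ℝ E]

/-- `U` (restricted to `t ≥ 0`) is a `C₀`-semigroup. -/
structure IsC0Semigroup (U : ℝ → E →L[ℝ] E) : Prop where
  zero : ∀ x, U 0 x = x
  add : ∀ s t : ℝ, 0 ≤ s → 0 ≤ t → ∀ x, U (s + t) x = U s (U t x)
  cont : ∀ x : E, Tendsto (fun t => U t x) (𝓝[>] 0) (𝓝 x)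

/-- `Gen U x y`: `x` lies in the domain `D(T)` of the generator `T` of `U`, and `T x = y`. -/
def Gen (U : ℝ → E →L[ℝ] E) (x y : E) : Prop :=
  Tendsto (fun t : ℝ => t⁻¹ • (U t x - x)) (𝓝[>] 0) (𝓝 y)

/-- `R` is the resolvent operator `(l - T)⁻¹`, `T` the generator of `U`. -/
def IsResolvent (U : ℝ → E →L[ℝ] E) (l : ℝ) (R : E →L[ℝ] E) : Prop :=
  (∀ y, ∃ z, Gen U (R y) z ∧ l • R y - z = y) ∧ ∀ x z, Gen U x z → R (l • x - z) = x

/-- The spectral radius `lim ‖K ^ n‖ ^ (1/n)` of `K` is less than one. -/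
def SpectralRadiusLtOne (K : E →L[ℝ] E) : Prop :=
  ∃ q : ℝ, 0 ≤ q ∧ q < 1 ∧ ∀ᶠ n : ℕ in atTop, ‖K ^ n‖ ≤ q ^ n

variable [PartialOrder E]

/-- The setting: `U` is a positive contraction `C₀`-semigroup with generator `T`, and `B` is
linear, positive and `T`-bounded on `D(T)`, with `r (B (l - T)⁻¹) < 1` for all large real `l`. -/
structure Setting (U : ℝ → E →L[ℝ] E) (B : E → E) : Prop where
  semigroup : IsC0Semigroup U
  pos : ∀ t, 0 ≤ t → ∀ x, 0 ≤ x → 0 ≤ U t x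
  contr : ∀ t, 0 ≤ t → ∀ x, ‖U t x‖ ≤ ‖x‖
  add : ∀ x y x' y', Gen U x y → Gen U x' y' → B (x + x') = B x + B x'
  smul : ∀ (a : ℝ) (x y : E), Gen U x y → B (a • x) = a • B x
  bounded : ∃ a b : ℝ, ∀ x y, Gen U x y → ‖B x‖ ≤ a * ‖x‖ + b * ‖y‖
  Bpos : ∀ x y, Gen U x y → 0 ≤ x → 0 ≤ B x
  spectral : ∃ l₀ : ℝ, ∀ l > l₀, ∃ R K : E →L[ℝ] E,
    IsResolvent U l R ∧ (∀ y, K y = B (R y)) ∧ SpectralRadiusLtOne K

omit [PartialOrder E] in
/-- `W j t` (`t ≥ 0`) are the Dyson–Phillips terms `U_j(t)` of `U` and `B`. -/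
def IsDysonPhillips (U : ℝ → E →L[ℝ] E) (B : E → E) (W : ℕ → ℝ → E →L[ℝ] E) : Prop :=
  (∀ t, 0 ≤ t → W 0 t = U t) ∧ ∀ j t, 0 ≤ t → ∀ x y, Gen U x y →
    IntervalIntegrable (fun s => W j (t - s) (B (U s x))) volume 0 t ∧
    W (j + 1) t x = ∫ s in (0 : ℝ)..t, W j (t - s) (B (U s x))

omit [PartialOrder E] in
/-- `A` maps bounded sets to relatively weakly compact sets. -/
def WeaklyCompactOp (A : E →L[ℝ] E) : Prop :=
  ∀ s : Set E, Bornology.IsBounded s → IsCompact (closure (toWeakSpace ℝ E '' (A '' s)))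

end

end Pool.Agent.X187.DP
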