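import Pool.Agent.X187.DP.Gn

namespace Pool.Agent.X187.DP

open Filter Topology Set MeasureTheory
open scoped Nat

lemma int_congr {E : Type} [NormedAddCommGroup E] [NormedSpace ℝ E] {f g : ℝ → E} {a b : ℝ}
    (h : ∀ s ∈ uIoc a b, f s = g s) : ∫ s in a..b, f s = ∫ s in a..b, g s :=
  intervalIntegral.integral_congr_ae (Eventually.of_forall h)

lemma integral_clm {E : Type} [NormedAddCommGroup E] [NormedSpace ℝ E] [CompleteSpace E]
    {A : ℝ → E →L[ℝ] E} (hA : ∀ x, Continuous fun s => A s x) {t C : ℝ} (ht : 0 ≤ t)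
    (hC : ∀ s, 0 ≤ s → ∀ x, ‖A s x‖ ≤ C * ‖x‖) :
    ∃ Φ : E →L[ℝ] E, ∀ x, Φ x = ∫ s in (0 : ℝ)..t, A s x := by
  refine ⟨LinearMap.mkContinuous
    { toFun := fun x => ∫ s in (0 : ℝ)..t, A s x
      map_add' := fun x y => by
        rw [← intervalIntegral.integral_add ((hA x).intervalIntegrable _ _)
          ((hA y).intervalIntegrable _ _)]
        simp only [map_add]
      map_smul' := fun a x => by
        rw [RingHom.id_apply, ← intervalIntegral.integral_smul]
        simp only [map_smul] } (C * t) (fun x => ?_), fun x => rfl⟩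
  have := intervalIntegral.norm_integral_le_of_norm_le_const (a := 0) (b := t)
    (f := fun s => A s x) (C := C * ‖x‖) (fun s hs => by
      rw [uIoc_of_le ht] at hs
      exact hC s hs.1.le x)
  rw [sub_zero, abs_of_nonneg ht] at this
  calc _ ≤ C * ‖x‖ * t := this
    _ = _ := by ring

variable {I E : Type} [NormedAddCommGroup E] [NormedSpace ℝ E] [PartialOrder E]
  [CompleteSpace E] {b : L1Basis I E} {blk : I → ℕ} {m : ℕ → ℝ} {S L : E →L[ℝ] E}

theorem dp_of (hm : ∀ k, 0 ≤ m k) (hS : ∀ x, ‖S x‖ ≤ ‖x‖) (cS : ∀ k, Commute (Pi b blk k) S)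
    (cL : ∀ k, Commute (Pi b blk k) L) {W : ℕ → ℝ → E →L[ℝ] E}
    (hW0 : ∀ t, 0 ≤ t → W 0 t = Ug b blk m S t)
    (hWn : ∀ j t x, ‖W j t x‖ ≤ 1 * ‖x‖) (hWc : ∀ j x, Continuous fun t => W j t x)
    (hWP : ∀ j t k, Commute (Pi b blk k) (W j t))
    (key : ∀ j t, 0 ≤ t → ∀ i, W (j + 1) t (b.e i) = ∫ s in (0 : ℝ)..t,
      W j (t - s) (m (blk i) • L ((S - 1) (Ex S (m (blk i)) s (b.e i))))) :
    IsDysonPhillips (Ug b blk m S) (Bg (Ug b blk m S) L) W := by
  refine ⟨hW0, fun j t ht x y h => ?_⟩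
  have hB : ∀ s, 0 ≤ s → Bg (Ug b blk m S) L (Ug b blk m S s x) = L (Ug b blk m S s y) :=
    fun s hs => Bg_eq L (Gen_Ug hm hS cS h hs)
  have hWc' : ∀ x, Continuous fun s => W j (t - s) x := fun x =>
    (hWc j x).comp (continuous_const.sub continuous_id)
  have hc : Continuous fun s => W j (t - s) (L (Ug b blk m S s y)) :=
    continuous_apply_of_bounded (A := fun s => W j (t - s)) (fun s x => hWn j (t - s) x) hWc'
      (L.continuous.comp (Ug_cont hm hS y))
  have heq : ∀ s ∈ uIoc 0 t, W j (t - s) (L (Ug b blk m S s y))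
      = W j (t - s) (Bg (Ug b blk m S) L (Ug b blk m S s x)) := fun s hs => by
    rw [uIoc_of_le ht] at hs
    rw [hB s hs.1.le]
  refine ⟨(hc.intervalIntegrable 0 t).congr heq, ?_⟩
  rw [← int_congr heq]
  refine ext_Pi b blk fun k => ?_
  have h1 : Pi b blk k (W (j + 1) t x) = W (j + 1) t (Pi b blk k x) := by
    rw [← mul_apply_eq_comp, (hWP (j + 1) t k).eq, mul_apply_eq_comp]
  rw [h1, ← ContinuousLinearMap.intervalIntegral_comp_comm _ (hc.intervalIntegrable 0 t)]
  have h2 : ∀ s ∈ uIoc 0 t, Pi b blk k (W j (t - s) (L (Ug b blk m S s y)))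
      = W j (t - s) (m k • L ((S - 1) (Ex S (m k) s (Pi b blk k x)))) := fun s hs => by
    rw [uIoc_of_le ht] at hs
    rw [← mul_apply_eq_comp (Pi b blk k), (hWP j (t - s) k).eq, mul_apply_eq_comp,
      ← mul_apply_eq_comp (Pi b blk k), (cL k).eq, mul_apply_eq_comp,
      Gen_Pi hm hS cS (Gen_Ug hm hS cS h hs.1.le) k, Pi_Ug hm hS cS, max_eq_left hs.1.le,
      smul_apply, map_smul]
  rw [int_congr h2]
  -- bounded operators
  set A : ℝ → E →L[ℝ] E := fun s =>
    (W j (t - s)).comp ((m k • L.comp (S - 1)).comp ((Ex S (m k) (max s 0)).comp (Pi b blk k)))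
    with hA
  have hAc : ∀ x, Continuous fun s => A s x := fun x => by
    refine continuous_apply_of_bounded (A := fun s => W j (t - s)) (fun s x => hWn j (t - s) x)
      hWc' (z := fun s => (m k • L.comp (S - 1)) (Ex S (m k) (max s 0) (Pi b blk k x))) ?_
    refine (m k • L.comp (S - 1)).continuous.comp ?_
    have h1 : Continuous fun u => Ex S (m k) u (Pi b blk k x) :=
      continuous_iff_continuousAt.2 fun u => (Ex_hasDerivAt S (m k) u _).continuousAt
    exact h1.comp (continuous_id.max continuous_const)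
  have hPn : ∀ x, ‖Pi b blk k x‖ ≤ ‖x‖ := fun x => by
    have := b.norm_le_of_e (Pi b blk k) (C := 1) (fun i => by
      rw [Pi_e]; split_ifs
      · rw [b.norm_e]
      · simp) x
    rwa [one_mul] at this
  obtain ⟨Φ, hΦ⟩ := integral_clm (A := A) hAc ht (C := ‖m k • L.comp (S - 1)‖) (fun s hs x => by
    refine (hWn _ _ _).trans ?_
    rw [one_mul]
    refine ((m k • L.comp (S - 1)).le_opNorm _).trans ?_
    refine mul_le_mul_of_nonneg_left ?_ (norm_nonneg _)
    exact (Ex_norm_le hS (hm k) (le_max_right _ _) _).trans (hPn x))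
  have h3 : (W (j + 1) t).comp (Pi b blk k) = Φ := by
    refine b.ext_e fun i => ?_
    rw [hΦ, ContinuousLinearMap.comp_apply, Pi_e]
    split_ifs with hk
    · rw [key j t ht i]
      refine int_congr fun s hs => ?_
      rw [uIoc_of_le ht] at hs
      rw [hA]
      simp only [ContinuousLinearMap.comp_apply, smul_apply]
      rw [Pi_e, if_pos hk, max_eq_left hs.1.le, hk]
    · rw [map_zero]
      have : ∀ s, A s (b.e i) = 0 := fun s => by
        rw [hA]
        simp only [ContinuousLinearMap.comp_apply]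
        rw [Pi_e, if_neg hk]; simp only [map_zero]
      simp only [this, intervalIntegral.integral_zero]
  have h4 := DFunLike.congr_fun h3 x
  rw [ContinuousLinearMap.comp_apply, hΦ] at h4
  rw [h4]
  refine int_congr fun s hs => ?_
  rw [uIoc_of_le ht] at hs
  rw [hA]
  simp only [ContinuousLinearMap.comp_apply, smul_apply]
  rw [max_eq_left hs.1.le]

end Pool.Agent.X187.DP
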