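import Pool.Agent.X187.DP.Def

namespace Pool.Agent.X187.DP

open Filter Topology Set MeasureTheory

/-- abstract `ℓ¹(I)` with its order -/
structure L1Basis (I E : Type) [NormedAddCommGroup E] [NormedSpace ℝ E] [PartialOrder E] where
  c : I → E →L[ℝ] ℝ
  e : I → E
  norm_e : ∀ i, ‖e i‖ = 1
  c_e : ∀ i, c i (e i) = 1
  c_ne : ∀ i j, i ≠ j → c i (e j) = 0
  summ : ∀ x, Summable fun i => |c i x|
  norm_eq : ∀ x, ‖x‖ = ∑' i, |c i x|
  hasSum : ∀ x, HasSum (fun i => c i x • e i) x
  nonneg_iff : ∀ x, 0 ≤ x ↔ ∀ i, 0 ≤ c i x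

namespace L1Basis

variable {I E : Type} [NormedAddCommGroup E] [NormedSpace ℝ E] [PartialOrder E]
  (b : L1Basis I E) {F : Type} [NormedAddCommGroup F] [NormedSpace ℝ F]

lemma ext_c {x y : E} (h : ∀ i, b.c i x = b.c i y) : x = y := by
  have h1 := b.norm_eq (x - y)
  have h2 : ∀ i, |b.c i (x - y)| = 0 := fun i => by rw [map_sub, h i, sub_self, abs_zero]
  simp only [h2, tsum_zero, norm_eq_zero] at h1
  exact sub_eq_zero.1 h1

lemma abs_c_le (i : I) (x : E) : |b.c i x| ≤ ‖x‖ := by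
  rw [b.norm_eq]; exact (b.summ x).le_tsum i fun j _ => abs_nonneg _

lemma hasSum_map (A : E →L[ℝ] F) (x : E) : HasSum (fun i => b.c i x • A (b.e i)) (A x) := by
  have := (b.hasSum x).mapL A
  simpa using this

lemma ext_e {A A' : E →L[ℝ] F} (h : ∀ i, A (b.e i) = A' (b.e i)) : A = A' := by
  ext x
  refine (b.hasSum_map A x).unique ?_
  have := b.hasSum_map A' x
  simpa only [← h] using this

lemma norm_le_of_e (A : E →L[ℝ] F) {C : ℝ} (hC : ∀ i, ‖A (b.e i)‖ ≤ C) (x : E) :
    ‖A x‖ ≤ C * ‖x‖ := by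
  have h1 : ∀ i, ‖b.c i x • A (b.e i)‖ ≤ C * |b.c i x| := fun i => by
    rw [norm_smul, Real.norm_eq_abs, mul_comm]
    exact mul_le_mul_of_nonneg_right (hC i) (abs_nonneg _)
  have h2 : Summable fun i => C * |b.c i x| := (b.summ x).mul_left C
  rw [← (b.hasSum_map A x).tsum_eq, b.norm_eq, ← tsum_mul_left]
  exact tsum_of_norm_bounded h2.hasSum h1

lemma nonneg_of_e (A : E →L[ℝ] E) (hA : ∀ i, 0 ≤ A (b.e i)) {x : E} (hx : 0 ≤ x) : 0 ≤ A x := by
  rw [b.nonneg_iff] at hx ⊢
  intro j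
  have h1 := b.hasSum_map ((b.c j).comp A) x
  refine h1.nonneg fun i => ?_
  have h2 := (b.nonneg_iff _).1 (hA i) j
  exact smul_nonneg (hx i) h2

variable [CompleteSpace F]

lemma summable_smul {v : I → F} {C : ℝ} (hC : ∀ i, ‖v i‖ ≤ C) (x : E) :
    Summable fun i => b.c i x • v i := by
  refine Summable.of_norm_bounded ((b.summ x).mul_left C) fun i => ?_
  rw [norm_smul, Real.norm_eq_abs, mul_comm]
  exact mul_le_mul_of_nonneg_right (hC i) (abs_nonneg _)

open Classical in
/-- the operator with `e i ↦ v i` -/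
noncomputable def lift (v : I → F) : E →L[ℝ] F :=
  if h : ∃ C, ∀ i, ‖v i‖ ≤ C then
    LinearMap.mkContinuous
      { toFun := fun x => ∑' i, b.c i x • v i
        map_add' := fun x y => by
          obtain ⟨C, hC⟩ := h
          rw [← (b.summable_smul hC x).tsum_add (b.summable_smul hC y)]
          exact tsum_congr fun i => by rw [map_add, add_smul]
        map_smul' := fun a x => by
          obtain ⟨C, hC⟩ := h
          rw [RingHom.id_apply, ← (b.summable_smul hC x).tsum_const_smul]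
          exact tsum_congr fun i => by rw [map_smul, smul_assoc] }
      h.choose
      (fun x => by
        have hC := h.choose_spec
        have h2 : Summable fun i => h.choose * |b.c i x| := (b.summ x).mul_left _
        rw [b.norm_eq, ← tsum_mul_left]
        refine tsum_of_norm_bounded h2.hasSum fun i => ?_
        rw [norm_smul, Real.norm_eq_abs, mul_comm]
        exact mul_le_mul_of_nonneg_right (hC i) (abs_nonneg _))
  else 0

lemma lift_apply {v : I → F} {C : ℝ} (hC : ∀ i, ‖v i‖ ≤ C) (x : E) :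
    b.lift v x = ∑' i, b.c i x • v i := by
  rw [lift, dif_pos ⟨C, hC⟩]; rfl

lemma lift_e {v : I → F} {C : ℝ} (hC : ∀ i, ‖v i‖ ≤ C) (i : I) :
    b.lift v (b.e i) = v i := by
  rw [b.lift_apply hC, tsum_eq_single i, b.c_e, one_smul]
  intro j hj
  rw [b.c_ne j i hj, zero_smul]

/-- strong continuity of families -/
lemma continuous_lift {T : Type} [TopologicalSpace T] {v : T → I → F} {C : ℝ}
    (hC : ∀ t i, ‖v t i‖ ≤ C) (hv : ∀ i, Continuous fun t => v t i) (x : E) :
    Continuous fun t => b.lift (v t) x := by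
  have h : (fun t => b.lift (v t) x) = fun t => ∑' i, b.c i x • v t i := by
    funext t; exact b.lift_apply (hC t) x
  rw [h]
  refine continuous_tsum (fun i => (hv i).const_smul _) ((b.summ x).mul_left C) fun i t => ?_
  rw [norm_smul, Real.norm_eq_abs, mul_comm]
  exact mul_le_mul_of_nonneg_right (hC t i) (abs_nonneg _)

end L1Basis

/-- joint continuity -/
lemma continuous_apply_of_bounded {E F : Type} [NormedAddCommGroup E] [NormedSpace ℝ E]
    [NormedAddCommGroup F] [NormedSpace ℝ F] {A : ℝ → E →L[ℝ] F} {C : ℝ}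
    (hA : ∀ t x, ‖A t x‖ ≤ C * ‖x‖) (hc : ∀ x, Continuous fun t => A t x) {z : ℝ → E}
    (hz : Continuous z) : Continuous fun t => A t (z t) := by
  rw [continuous_iff_continuousAt]
  intro t₀
  rw [ContinuousAt, tendsto_iff_norm_sub_tendsto_zero]
  have h1 : Tendsto (fun t => C * ‖z t - z t₀‖ + ‖A t (z t₀) - A t₀ (z t₀)‖) (𝓝 t₀) (𝓝 (C * 0 + 0)) := by
    refine ((tendsto_iff_norm_sub_tendsto_zero.1 (hz.tendsto t₀)).const_mul C).add
      (tendsto_iff_norm_sub_tendsto_zero.1 ((hc (z t₀)).tendsto t₀))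
  simp only [mul_zero, add_zero] at h1
  refine squeeze_zero (fun _ => norm_nonneg _) (fun t => ?_) h1
  calc ‖A t (z t) - A t₀ (z t₀)‖ = ‖A t (z t - z t₀) + (A t (z t₀) - A t₀ (z t₀))‖ := by
        rw [map_sub]; congr 1; abel
    _ ≤ ‖A t (z t - z t₀)‖ + ‖A t (z t₀) - A t₀ (z t₀)‖ := norm_add_le _ _
    _ ≤ _ := by gcongr; exact hA _ _

end Pool.Agent.X187.DP
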