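import Pool.Agent.X187.DP.Ell

namespace Pool.Agent.X187.DP

open Filter Topology Set MeasureTheory
open scoped ENNReal

variable {I : Type} [MeasurableSpace I] [MeasurableSingletonClass I]

lemma count_ext {f g : I → ℝ} (h : f =ᵐ[Measure.count] g) : f = g :=
  funext (Measure.ae_count_iff.1 h)

lemma co_add (x y : Lp ℝ 1 (Measure.count : Measure I)) (i : I) : (x + y) i = x i + y i :=
  congrFun (count_ext (Lp.coeFn_add x y)) i

lemma co_smul (a : ℝ) (x : Lp ℝ 1 (Measure.count : Measure I)) (i : I) : (a • x) i = a * x i :=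
  congrFun (count_ext (Lp.coeFn_smul a x)) i

lemma norm_tsum (x : Lp ℝ 1 (Measure.count : Measure I)) :
    (Summable fun i => |x i|) ∧ ‖x‖ = ∑' i, |x i| := by
  have h1 : eLpNorm x 1 (Measure.count : Measure I) = ∑' i, ‖x i‖ₑ := by
    rw [eLpNorm_one_eq_lintegral_enorm, lintegral_count]
  have h2 : ∑' i, ‖x i‖ₑ ≠ ∞ := by rw [← h1]; exact (Lp.eLpNorm_lt_top x).ne
  have h3 : Summable fun i => |x i| := by
    have := ENNReal.summable_toReal h2
    simpa using this
  refine ⟨h3, ?_⟩
  rw [Lp.norm_def, h1, ENNReal.tsum_toReal_eq (fun i => by simp)]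
  simp

/-- coordinate functional -/
noncomputable def coL (i : I) : Lp ℝ 1 (Measure.count : Measure I) →L[ℝ] ℝ :=
  LinearMap.mkContinuous
    { toFun := fun x => x i
      map_add' := fun x y => co_add x y i
      map_smul' := fun a x => co_smul a x i } 1 fun x => by
    rw [one_mul, (norm_tsum x).2]
    exact (norm_tsum x).1.le_tsum i fun j _ => abs_nonneg _

lemma coL_apply (i : I) (x : Lp ℝ 1 (Measure.count : Measure I)) : coL i x = x i := rfl

/-- unit vector -/
noncomputable def un (i : I) : Lp ℝ 1 (Measure.count : Measure I) :=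
  indicatorConstLp 1 (measurableSet_singleton i) (by simp) (1 : ℝ)

lemma un_apply (i j : I) : (un i : Lp ℝ 1 (Measure.count : Measure I)) j
    = Set.indicator {i} (fun _ => (1 : ℝ)) j :=
  congrFun (count_ext indicatorConstLp_coeFn) j

lemma un_same (i : I) : (un i : Lp ℝ 1 (Measure.count : Measure I)) i = 1 := by
  rw [un_apply]; simp
lemma un_ne {i j : I} (h : j ≠ i) : (un i : Lp ℝ 1 (Measure.count : Measure I)) j = 0 := by
  rw [un_apply, Set.indicator_of_notMem (by simpa using h)]

/-- `L¹` of the counting measure -/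
noncomputable def l1b : L1Basis I (Lp ℝ 1 (Measure.count : Measure I)) where
  c := coL
  e := un
  norm_e := fun i => by
    rw [(norm_tsum _).2, tsum_eq_single i (fun j hj => by rw [un_ne hj, abs_zero]), un_same,
      abs_one]
  c_e := fun i => un_same i
  c_ne := fun i j h => un_ne h
  summ := fun x => (norm_tsum x).1
  norm_eq := fun x => (norm_tsum x).2
  hasSum := fun x => by
    have hn : ∀ i : I, ‖(un i : Lp ℝ 1 (Measure.count : Measure I))‖ = 1 := fun i => by
      rw [(norm_tsum _).2, tsum_eq_single i (fun j hj => by rw [un_ne hj, abs_zero]), un_same,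
        abs_one]
    have hs : Summable fun i => coL i x • (un i : Lp ℝ 1 (Measure.count : Measure I)) := by
      refine Summable.of_norm ?_
      simpa only [norm_smul, hn, mul_one, coL_apply, Real.norm_eq_abs] using (norm_tsum x).1
    have h2 : ∑' i, coL i x • (un i : Lp ℝ 1 (Measure.count : Measure I)) = x := by
      refine Lp.ext (Measure.ae_count_iff.2 fun j => ?_)
      have h3 := hs.hasSum.mapL (coL j)
      have h4 := h3.unique (hasSum_single j fun i hi => by
        rw [map_smul, coL_apply j, un_ne hi.symm, smul_zero])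
      rw [map_smul, coL_apply, coL_apply, coL_apply, un_same, smul_eq_mul, mul_one] at h4
      exact h4
    rw [← h2]
    convert! hs.hasSum using 1
    all_goals first | rfl | (funext i; rw [h2]) | rw [h2]
  nonneg_iff := fun x => by
    rw [← Lp.coeFn_nonneg]
    exact Measure.ae_count_iff

end Pool.Agent.X187.DP
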