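import Pool.Agent.X187.DP.Cp
import Pool.Agent.X187.DP.Lb

namespace Pool.Agent.X187.DP

open Filter Topology Set MeasureTheory

instance : MeasurableSpace St := ⊤
instance : MeasurableSingletonClass St := ⟨fun _ => trivial⟩

theorem main : ∃ (Ω : Type) (_ : MeasurableSpace Ω) (ν : Measure Ω)
    (U : ℝ → Lp ℝ 1 ν →L[ℝ] Lp ℝ 1 ν) (B : Lp ℝ 1 ν → Lp ℝ 1 ν)
    (W : ℕ → ℝ → Lp ℝ 1 ν →L[ℝ] Lp ℝ 1 ν),
    Setting U B ∧ IsDysonPhillips U B W ∧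
      (∀ t, 0 ≤ t → IsCompactOperator (W 1 t) ∧ WeaklyCompactOp (W 1 t)) ∧
      ¬ IsCompactOperator (W 3 1) :=
  ⟨St, inferInstance, Measure.count, UU l1b, BB l1b, WW l1b, setting l1b, dyson l1b,
    fun _ ht => ⟨compact_W1 l1b ht, weaklyCompact_of (compact_W1 l1b ht)⟩, not_compact_W3 l1b⟩

end Pool.Agent.X187.DP
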