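import Pool.Agent.X187.DP.Sg

namespace Pool.Agent.X187.DP

open Filter Topology Set MeasureTheory
open scoped Nat

variable {I E : Type} [NormedAddCommGroup E] [NormedSpace ℝ E] [PartialOrder E]
  [CompleteSpace E] (b : L1Basis I E) (blk : I → ℕ) (m : ℕ → ℝ) (S L : E →L[ℝ] E)

/-- the semigroup -/
noncomputable def Ug (t : ℝ) : E →L[ℝ] E := bd b blk (fun k => Ex S (m k) (max t 0))

/-- the resolvent -/
noncomputable def Rg (l : ℝ) : E →L[ℝ] E := bd b blk (fun k => Rs S (m k) l)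

open Classical in
/-- `B x = L (T x)` -/
noncomputable def Bg (U : ℝ → E →L[ℝ] E) (L : E →L[ℝ] E) (x : E) : E :=
  if h : ∃ y, Gen U x y then L h.choose else 0

omit [PartialOrder E] [CompleteSpace E] in
lemma Gen.unique {U : ℝ → E →L[ℝ] E} {x y y' : E} (h : Gen U x y) (h' : Gen U x y') : y = y' :=
  tendsto_nhds_unique h h'

omit [PartialOrder E] [CompleteSpace E] in
lemma Bg_eq {U : ℝ → E →L[ℝ] E} {x y : E} (h : Gen U x y) : Bg U L x = L y := by
  have h' : ∃ y, Gen U x y := ⟨y, h⟩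
  rw [Bg, dif_pos h', h'.choose_spec.unique h]

omit [PartialOrder E] [CompleteSpace E] in
lemma Gen.add {U : ℝ → E →L[ℝ] E} {x y x' y' : E} (h : Gen U x y) (h' : Gen U x' y') :
    Gen U (x + x') (y + y') := by
  refine (Tendsto.add h h').congr fun t => ?_
  rw [map_add, ← smul_add]; congr 1; abel

omit [PartialOrder E] [CompleteSpace E] in
lemma Gen.smul {U : ℝ → E →L[ℝ] E} {x y : E} (h : Gen U x y) (a : ℝ) :
    Gen U (a • x) (a • y) := by
  refine (Tendsto.const_smul h a).congr fun t => ?_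
  rw [map_smul, smul_comm, smul_sub]

variable {b blk m S L}
variable (hm : ∀ k, 0 ≤ m k) (hS : ∀ x, ‖S x‖ ≤ ‖x‖) (cS : ∀ k, Commute (Pi b blk k) S)

include hm hS

lemma Ug_aux (t : ℝ) : ∀ (k : ℕ) (x : E), ‖Ex S (m k) (max t 0) x‖ ≤ 1 * ‖x‖ := fun k x => by
  rw [one_mul]; exact Ex_norm_le hS (hm k) (le_max_right _ _) x

lemma Ug_e (t : ℝ) (i : I) : Ug b blk m S t (b.e i) = Ex S (m (blk i)) (max t 0) (b.e i) :=
  bd_e b (Ug_aux hm hS t) i

lemma Ug_Pi (t : ℝ) (k : ℕ) (x : E) :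
    Ug b blk m S t (Pi b blk k x) = Ex S (m k) (max t 0) (Pi b blk k x) :=
  bd_Pi b (Ug_aux hm hS t) k x

lemma Ug_contr (t : ℝ) (x : E) : ‖Ug b blk m S t x‖ ≤ ‖x‖ := by
  have := bd_norm_le b (blk := blk) (Ug_aux hm hS t) x
  rwa [one_mul] at this

lemma Ug_cont (x : E) : Continuous fun t => Ug b blk m S t x := by
  refine b.continuous_lift (C := 1) (fun t i => ?_) (fun i => ?_) x
  · have := Ug_aux hm hS t (blk i) (b.e i)
    rwa [b.norm_e, mul_one] at this
  · have h1 : Continuous fun u => Ex S (m (blk i)) u (b.e i) :=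
      continuous_iff_continuousAt.2 fun u => (Ex_hasDerivAt S (m (blk i)) u (b.e i)).continuousAt
    exact h1.comp (continuous_id.max continuous_const)

lemma Ug_pos (pS : ∀ x, 0 ≤ x → 0 ≤ S x) (t : ℝ) {x : E} (hx : 0 ≤ x) :
    0 ≤ Ug b blk m S t x := by
  refine b.nonneg_of_e _ (fun i => ?_) hx
  rw [Ug_e hm hS]
  refine (Ex_isPS S _ _).pos b pS (fun n => ?_) ?_
  · have := hm (blk i)
    positivity
  · rw [b.nonneg_iff]; intro j
    by_cases h : j = i
    · subst h; rw [b.c_e]; norm_num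
    · rw [b.c_ne j i h]

include cS

omit hm hS in
lemma commute_Ex (k l : ℕ) (t : ℝ) : Commute (Pi b blk l) (Ex S (m k) t) :=
  (Ex_isPS S _ _).commute (cS l)

lemma Pi_Ug (t : ℝ) (k : ℕ) (x : E) :
    Pi b blk k (Ug b blk m S t x) = Ex S (m k) (max t 0) (Pi b blk k x) :=
  Pi_bd b (Ug_aux hm hS t) (fun k l => commute_Ex cS k l _) k x

lemma Ug_C0 : IsC0Semigroup (Ug b blk m S) where
  zero := fun x => ext_Pi b blk fun k => by
    rw [Pi_Ug hm hS cS, max_self, Ex_zero]; rfl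
  add := fun s t hs ht x => ext_Pi b blk fun k => by
    rw [Pi_Ug hm hS cS, Pi_Ug hm hS cS, Pi_Ug hm hS cS, max_eq_left hs, max_eq_left ht,
      max_eq_left (add_nonneg hs ht), Ex_add]; rfl
  cont := fun x => by
    have h := ((Ug_cont (b := b) (blk := blk) hm hS x).tendsto 0).mono_left
      (nhdsWithin_le_nhds (s := Ioi 0))
    have h0 : Ug b blk m S 0 x = x := ext_Pi b blk fun k => by
      rw [Pi_Ug hm hS cS, max_self, Ex_zero]; rfl
    rwa [h0] at h

lemma Gen_Pi {x y : E} (h : Gen (Ug b blk m S) x y) (k : ℕ) :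
    Pi b blk k y = (m k • (S - 1)) (Pi b blk k x) := by
  have h1 := ((Pi b blk k).continuous.tendsto y).comp h
  refine tendsto_nhds_unique h1 ?_
  have h2 := (Ex_hasDerivAt S (m k) 0 (Pi b blk k x)).tendsto_slope_zero_right
  rw [Ex_zero] at h2
  refine Tendsto.congr' ?_ h2
  filter_upwards [self_mem_nhdsWithin] with t ht
  rw [Function.comp_apply, map_smul, map_sub, Pi_Ug hm hS cS, max_eq_left (le_of_lt ht), zero_add]
  rfl

lemma Gen_Ug {x y : E} (h : Gen (Ug b blk m S) x y) {s : ℝ} (hs : 0 ≤ s) :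
    Gen (Ug b blk m S) (Ug b blk m S s x) (Ug b blk m S s y) := by
  have h1 := ((Ug b blk m S s).continuous.tendsto y).comp h
  refine Tendsto.congr' ?_ h1
  filter_upwards [self_mem_nhdsWithin] with t ht
  have C0 := Ug_C0 hm hS cS
  rw [Function.comp_apply, map_smul, map_sub, ← C0.add s t hs (le_of_lt ht), add_comm s t,
    C0.add t s (le_of_lt ht) hs]

lemma Rg_aux {l : ℝ} (hl : 0 < l) : ∀ (k : ℕ) (x : E), ‖Rs S (m k) l x‖ ≤ l⁻¹ * ‖x‖ :=
  fun k x => Rs_norm_le hS (hm k) hl x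

lemma Rg_e {l : ℝ} (hl : 0 < l) (i : I) : Rg b blk m S l (b.e i) = Rs S (m (blk i)) l (b.e i) :=
  bd_e b (Rg_aux hm hS cS hl) i

lemma Pi_Rg {l : ℝ} (hl : 0 < l) (k : ℕ) (x : E) :
    Pi b blk k (Rg b blk m S l x) = Rs S (m k) l (Pi b blk k x) :=
  Pi_bd b (Rg_aux hm hS cS hl) (fun k j => (Rs_isPS hS (hm k) hl).commute (cS j)) k x

lemma Gen_Rg {l : ℝ} (hl : 0 < l) (y : E) :
    Gen (Ug b blk m S) (Rg b blk m S l y) (l • Rg b blk m S l y - y) := by
  set U := Ug b blk m S with hU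
  set R := Rg b blk m S l with hR
  -- on basis vectors
  have hb : ∀ i, l • R (b.e i) - b.e i = (m (blk i) • (S - 1)) (R (b.e i)) := fun i => by
    have := Rs_right hS (hm (blk i)) hl (b.e i)
    rw [← Rg_e hm hS cS hl] at this
    rw [sub_eq_iff_eq_add, ← sub_eq_iff_eq_add']
    exact this
  have hPR : ∀ i, Pi b blk (blk i) (R (b.e i)) = R (b.e i) := fun i => by
    rw [hR, Pi_Rg hm hS cS hl, Pi_e, if_pos rfl, Rg_e hm hS cS hl]
  have hUR : ∀ i t, U t (R (b.e i)) = Ex S (m (blk i)) (max t 0) (R (b.e i)) := fun i t => by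
    rw [← hPR i]; exact Ug_Pi hm hS t _ _
  have hnorm : ∀ i, ‖l • R (b.e i) - b.e i‖ ≤ 2 := fun i => by
    refine (norm_sub_le _ _).trans ?_
    rw [norm_smul, Real.norm_of_nonneg hl.le, b.norm_e]
    have := Rs_norm_le hS (hm (blk i)) hl (b.e i)
    rw [← Rg_e hm hS cS hl, b.norm_e, mul_one] at this
    have h2 : l * ‖R (b.e i)‖ ≤ l * l⁻¹ := mul_le_mul_of_nonneg_left this hl.le
    rw [mul_inv_cancel₀ hl.ne'] at h2
    linarith
  have h1 : ∀ t, t⁻¹ • (U t (R y) - R y)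
      = ∑' i, b.c i y • (t⁻¹ • (U t (R (b.e i)) - R (b.e i))) := fun t => by
    have := b.hasSum_map (t⁻¹ • ((U t).comp R - R)) y
    exact this.tsum_eq.symm
  have h2 : l • R y - y = ∑' i, b.c i y • (l • R (b.e i) - b.e i) := by
    have := b.hasSum_map (l • R - ContinuousLinearMap.id ℝ E) y
    exact this.tsum_eq.symm
  rw [Gen, h2]
  simp only [h1]
  refine tendsto_tsum_of_dominated_convergence (bound := fun i => |b.c i y| * 2)
    ((b.summ y).mul_right 2) (fun i => ?_) ?_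
  · refine Tendsto.const_smul ?_ _
    have h3 := (Ex_hasDerivAt S (m (blk i)) 0 (R (b.e i))).tendsto_slope_zero_right
    simp only [Ex_zero, one_apply_eq_self] at h3
    rw [← hb] at h3
    refine Tendsto.congr' ?_ h3
    filter_upwards [self_mem_nhdsWithin] with t ht
    rw [hUR, max_eq_left (le_of_lt ht), zero_add]
  · filter_upwards [self_mem_nhdsWithin] with t ht i
    rw [norm_smul, Real.norm_eq_abs]
    refine mul_le_mul_of_nonneg_left ?_ (abs_nonneg _)
    rw [hUR, max_eq_left (le_of_lt ht), norm_smul, norm_inv, Real.norm_of_nonneg (le_of_lt ht)]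
    have h4 := Ex_sub_le hS (hm (blk i)) (le_of_lt ht) (R (b.e i))
    rw [← hb] at h4
    rw [inv_mul_le_iff₀ ht]
    exact h4.trans (mul_le_mul_of_nonneg_left (hnorm i) (le_of_lt ht))

lemma Rg_isResolvent {l : ℝ} (hl : 0 < l) : IsResolvent (Ug b blk m S) l (Rg b blk m S l) := by
  refine ⟨fun y => ⟨_, Gen_Rg hm hS cS hl y, by abel⟩, fun x z h => ?_⟩
  refine ext_Pi b blk fun k => ?_
  rw [Pi_Rg hm hS cS hl, map_sub, map_smul, Gen_Pi hm hS cS h k, Rs_left hS (hm k) hl]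

theorem setting_of (pS : ∀ x, 0 ≤ x → 0 ≤ S x) (cL : ∀ k, Commute (Pi b blk k) L)
    (pB : ∀ x, 0 ≤ x → 0 ≤ L ((S - 1) x))
    (nK : ∀ l > 0, ∃ n, (L.comp (l • Rg b blk m S l - ContinuousLinearMap.id ℝ E)) ^ n = 0) :
    Setting (Ug b blk m S) (Bg (Ug b blk m S) L) where
  semigroup := Ug_C0 hm hS cS
  pos := fun t _ x hx => Ug_pos hm hS pS t hx
  contr := fun t _ x => Ug_contr hm hS t x
  add := fun x y x' y' h h' => by
    rw [Bg_eq L h, Bg_eq L h', Bg_eq L (h.add h'), map_add]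
  smul := fun a x y h => by rw [Bg_eq L h, Bg_eq L (h.smul a), map_smul]
  bounded := ⟨0, ‖L‖, fun x y h => by
    rw [Bg_eq L h, zero_mul, zero_add]; exact L.le_opNorm y⟩
  Bpos := fun x y h hx => by
    rw [Bg_eq L h, b.nonneg_iff]
    intro i
    have h1 : b.c i (L y) = b.c i (Pi b blk (blk i) (L y)) := by rw [c_Pi, if_pos rfl]
    have h2 : Pi b blk (blk i) (L y) = m (blk i) • L ((S - 1) (Pi b blk (blk i) x)) := by
      rw [← mul_apply_eq_comp, (cL (blk i)).eq, mul_apply_eq_comp, Gen_Pi hm hS cS h,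
        smul_apply, map_smul]
    rw [h1, h2, map_smul]
    refine smul_nonneg (hm _) ((b.nonneg_iff _).1 (pB _ ?_) i)
    rw [b.nonneg_iff]
    intro j
    rw [c_Pi]
    split_ifs
    · exact (b.nonneg_iff x).1 hx j
    · exact le_rfl
  spectral := ⟨0, fun l hl => ⟨Rg b blk m S l,
      L.comp (l • Rg b blk m S l - ContinuousLinearMap.id ℝ E), Rg_isResolvent hm hS cS hl, fun y => by
      rw [Bg_eq L (Gen_Rg hm hS cS hl y)]; rfl, by
      obtain ⟨n, hn⟩ := nK l hl
      refine ⟨1 / 2, by norm_num, by norm_num, ?_⟩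
      filter_upwards [eventually_ge_atTop n] with k hk
      rw [pow_eq_zero_of_le hk hn, norm_zero]
      positivity⟩⟩

end Pool.Agent.X187.DP
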