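import Pool.Agent.X187.DP.Ell

namespace Pool.Agent.X187.DP

open Filter Topology Set MeasureTheory
open scoped Nat

section PS
variable {E : Type} [NormedAddCommGroup E] [NormedSpace ℝ E]

/-- `G = ∑ a n S ^ n` -/
def IsPS (S : E →L[ℝ] E) (a : ℕ → ℝ) (G : E →L[ℝ] E) : Prop := HasSum (fun n => a n • S ^ n) G

variable {S G : E →L[ℝ] E} {a : ℕ → ℝ}

lemma IsPS.apply (h : IsPS S a G) (y : E) : HasSum (fun n => a n • (S ^ n) y) (G y) := by
  have := HasSum.mapL (ContinuousLinearMap.apply ℝ E y) h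
  simpa using this

lemma norm_pow_apply_le (hS : ∀ x, ‖S x‖ ≤ ‖x‖) (n : ℕ) (x : E) : ‖(S ^ n) x‖ ≤ ‖x‖ := by
  induction n generalizing x with
  | zero => simp
  | succ n ih => rw [pow_succ, mul_apply_eq_comp]; exact (ih _).trans (hS x)

lemma IsPS.norm_le (h : IsPS S a G) (hS : ∀ x, ‖S x‖ ≤ ‖x‖) (ha : ∀ n, 0 ≤ a n) {C : ℝ}
    (hC : HasSum a C) (y : E) : ‖G y‖ ≤ C * ‖y‖ := by
  rw [← (h.apply y).tsum_eq]
  refine tsum_of_norm_bounded (hC.mul_right ‖y‖) fun n => ?_
  rw [norm_smul, Real.norm_of_nonneg (ha n)]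
  exact mul_le_mul_of_nonneg_left (norm_pow_apply_le hS n y) (ha n)

lemma IsPS.commute (h : IsPS S a G) {P : E →L[ℝ] E} (hP : Commute P S) : Commute P G := by
  rw [← h.tsum_eq]
  exact Commute.tsum_right _ fun n => (hP.pow_right n).smul_right _

lemma IsPS.pos {I : Type} [PartialOrder E] (b : L1Basis I E) (h : IsPS S a G)
    (hS : ∀ x, 0 ≤ x → 0 ≤ S x) (ha : ∀ n, 0 ≤ a n) {y : E} (hy : 0 ≤ y) : 0 ≤ G y := by
  have h1 : ∀ n, 0 ≤ (S ^ n) y := fun n => by
    induction n with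
    | zero => simpa using hy
    | succ n ih => rw [pow_succ', mul_apply_eq_comp]; exact hS _ ih
  rw [b.nonneg_iff]
  intro j
  have h2 := HasSum.mapL (b.c j) (h.apply y)
  refine h2.nonneg fun n => ?_
  rw [map_smul]
  exact smul_nonneg (ha n) ((b.nonneg_iff _).1 (h1 n) j)

variable [CompleteSpace E]

/-- `exp (t m (S - 1))` -/
noncomputable def Ex (S : E →L[ℝ] E) (m t : ℝ) : E →L[ℝ] E :=
  NormedSpace.exp (t • (m • (S - 1)))

lemma Ex_isPS (S : E →L[ℝ] E) (m t : ℝ) :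
    IsPS S (fun n => Real.exp (-(t * m)) * ((t * m) ^ n / (n ! : ℝ))) (Ex S m t) := by
  have h1 : t • (m • (S - 1)) = (t * m) • S + algebraMap ℝ (E →L[ℝ] E) (-(t * m)) := by
    rw [Algebra.algebraMap_eq_smul_one, smul_sub, smul_sub, smul_smul, smul_smul, neg_smul,
      sub_eq_add_neg]
  have h2 : Ex S m t = Real.exp (-(t * m)) • NormedSpace.exp ((t * m) • S) := by
    let _ : NormedAlgebra ℚ (E →L[ℝ] E) := NormedAlgebra.restrictScalars ℚ ℝ _
    rw [Ex, h1, NormedSpace.exp_add_of_commute (Algebra.commute_algebraMap_right _ _),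
      ← NormedSpace.algebraMap_exp_comm, ← Real.exp_eq_exp_ℝ, Algebra.algebraMap_eq_smul_one,
      mul_smul_one]
  rw [IsPS, h2]
  have h3 := (NormedSpace.exp_series_hasSum_exp' (𝕂 := ℝ) ((t * m) • S)).const_smul
    (Real.exp (-(t * m)))
  convert! h3 using 1
  funext n
  rw [smul_pow, smul_smul, smul_smul]
  congr 1
  ring

lemma Ex_zero (S : E →L[ℝ] E) (m : ℝ) : Ex S m 0 = 1 := by
  rw [Ex, zero_smul, NormedSpace.exp_zero]

lemma Ex_add (S : E →L[ℝ] E) (m s t : ℝ) : Ex S m (s + t) = Ex S m s * Ex S m t := by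
  let _ : NormedAlgebra ℚ (E →L[ℝ] E) := NormedAlgebra.restrictScalars ℚ ℝ _
  rw [Ex, Ex, Ex, ← NormedSpace.exp_add_of_commute, add_smul]
  exact ((Commute.refl _).smul_left _).smul_right _

lemma Ex_hasDerivAt (S : E →L[ℝ] E) (m t : ℝ) (x : E) :
    HasDerivAt (fun u => Ex S m u x) (Ex S m t ((m • (S - 1)) x)) t := by
  have h := hasDerivAt_exp_smul_const (𝕂 := ℝ) (m • (S - 1) : E →L[ℝ] E) t
  have h2 := (ContinuousLinearMap.apply ℝ E x).hasFDerivAt.comp_hasDerivAt t h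
  exact h2

lemma Ex_norm_le {S : E →L[ℝ] E} (hS : ∀ x, ‖S x‖ ≤ ‖x‖) {m t : ℝ} (hm : 0 ≤ m) (ht : 0 ≤ t)
    (x : E) : ‖Ex S m t x‖ ≤ ‖x‖ := by
  have h1 : HasSum (fun n => Real.exp (-(t * m)) * ((t * m) ^ n / (n ! : ℝ))) 1 := by
    have h2 := (NormedSpace.exp_series_hasSum_exp' (𝕂 := ℝ) (t * m)).mul_left
      (Real.exp (-(t * m)))
    rw [← Real.exp_eq_exp_ℝ, ← Real.exp_add, neg_add_cancel, Real.exp_zero] at h2
    convert! h2 using 1
    funext n
    rw [smul_eq_mul]; ring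
  have h3 := (Ex_isPS S m t).norm_le hS (fun n => by positivity) h1 x
  simpa using h3

lemma Ex_sub_le {S : E →L[ℝ] E} (hS : ∀ x, ‖S x‖ ≤ ‖x‖) {m t : ℝ} (hm : 0 ≤ m) (ht : 0 ≤ t)
    (x : E) : ‖Ex S m t x - x‖ ≤ t * ‖(m • (S - 1)) x‖ := by
  have h := norm_image_sub_le_of_norm_deriv_le_segment' (f := fun u => Ex S m u x)
    (f' := fun u => Ex S m u ((m • (S - 1)) x)) (C := ‖(m • (S - 1)) x‖) (a := 0) (b := t)
    (fun u _ => (Ex_hasDerivAt S m u x).hasDerivWithinAt)
    (fun u hu => Ex_norm_le hS hm hu.1 _) t ⟨ht, le_rfl⟩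
  have h0 : Ex S m 0 x = x := by rw [Ex_zero]; rfl
  simp only [h0, sub_zero] at h
  linarith

/-- the resolvent `(l - m (S - 1))⁻¹` -/
noncomputable def Rs (S : E →L[ℝ] E) (m l : ℝ) : E →L[ℝ] E :=
  (l + m)⁻¹ • ∑' n : ℕ, ((m / (l + m)) • S) ^ n

section
variable {S : E →L[ℝ] E} (hS : ∀ x, ‖S x‖ ≤ ‖x‖) {m l : ℝ} (hm : 0 ≤ m) (hl : 0 < l)
include hS hm hl

lemma Rs_lt : ‖(m / (l + m)) • S‖ < 1 := by
  have h1 : ‖S‖ ≤ 1 := ContinuousLinearMap.opNorm_le_bound _ zero_le_one fun x => by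
    rw [one_mul]; exact hS x
  have h2 : 0 ≤ m / (l + m) := by positivity
  have h3 : m / (l + m) < 1 := by rw [div_lt_one (by positivity)]; linarith
  rw [norm_smul, Real.norm_of_nonneg h2]
  nlinarith [norm_nonneg S]

lemma Rs_isPS : IsPS S (fun n => (l + m)⁻¹ * (m / (l + m)) ^ n) (Rs S m l) := by
  have h := (summable_geometric_of_norm_lt_one (Rs_lt hS hm hl)).hasSum.const_smul (l + m)⁻¹
  rw [IsPS, Rs]
  convert! h using 1
  funext n
  rw [smul_pow, smul_smul]

lemma Rs_norm_le (x : E) : ‖Rs S m l x‖ ≤ l⁻¹ * ‖x‖ := by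
  have h3 : m / (l + m) < 1 := by rw [div_lt_one (by positivity)]; linarith
  have h1 : HasSum (fun n => (l + m)⁻¹ * (m / (l + m)) ^ n) l⁻¹ := by
    have h2 := (hasSum_geometric_of_lt_one (by positivity : 0 ≤ m / (l + m)) h3).mul_left
      (l + m)⁻¹
    have h4 : 1 - m / (l + m) = l / (l + m) := by field_simp; ring
    rw [h4, inv_div, inv_mul_eq_div, div_div, mul_comm l, ← div_div,
      div_self (by positivity : (l + m) ≠ 0), one_div] at h2
    exact h2
  exact (Rs_isPS hS hm hl).norm_le hS (fun n => by positivity) h1 x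

lemma Rs_left (x : E) : Rs S m l (l • x - (m • (S - 1)) x) = x := by
  have h1 := geom_series_mul_neg _ (Rs_lt hS hm hl)
  have h2 : l • x - (m • (S - 1)) x = (l + m) • ((1 - (m / (l + m)) • S : E →L[ℝ] E) x) := by
    have : (l + m) * (m / (l + m)) = m := by field_simp
    simp only [smul_apply, sub_apply,
      one_apply_eq_self, smul_sub, smul_smul, this, add_smul]
    abel
  rw [h2, map_smul, Rs, smul_apply, smul_smul, mul_inv_cancel₀ (by positivity),
    one_smul, ← mul_apply_eq_comp, h1]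
  rfl

lemma Rs_right (x : E) : l • (Rs S m l x) - (m • (S - 1)) (Rs S m l x) = x := by
  have h1 := mul_neg_geom_series _ (Rs_lt hS hm hl)
  have h2 : ∀ x, l • x - (m • (S - 1)) x = (l + m) • ((1 - (m / (l + m)) • S : E →L[ℝ] E) x) := by
    intro x
    have : (l + m) * (m / (l + m)) = m := by field_simp
    simp only [smul_apply, sub_apply,
      one_apply_eq_self, smul_sub, smul_smul, this, add_smul]
    abel
  rw [h2, Rs, smul_apply, map_smul, smul_smul, mul_inv_cancel₀ (by positivity),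
    one_smul, ← mul_apply_eq_comp, h1]
  rfl

end

end PS

section Sys

variable {I E : Type} [NormedAddCommGroup E] [NormedSpace ℝ E] [PartialOrder E]
  [CompleteSpace E] (b : L1Basis I E)

/-- block projection -/
noncomputable def Pi (blk : I → ℕ) (k : ℕ) : E →L[ℝ] E :=
  b.lift fun i => if blk i = k then b.e i else 0

variable (blk : I → ℕ)

lemma Pi_e (k : ℕ) (i : I) : Pi b blk k (b.e i) = if blk i = k then b.e i else 0 := by
  rw [Pi, b.lift_e (C := 1)]
  intro i
  split_ifs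
  · rw [b.norm_e]
  · simp

lemma c_Pi (k : ℕ) (i : I) (x : E) :
    b.c i (Pi b blk k x) = if blk i = k then b.c i x else 0 := by
  have h : (b.c i).comp (Pi b blk k) = (if blk i = k then (1 : ℝ) else 0) • b.c i := by
    refine b.ext_e fun j => ?_
    rw [ContinuousLinearMap.comp_apply, Pi_e, smul_apply]
    by_cases hij : i = j
    · subst hij
      split_ifs <;> simp
    · rw [b.c_ne i j hij]
      split_ifs <;> simp [b.c_ne i j hij]
  have := DFunLike.congr_fun h x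
  rw [ContinuousLinearMap.comp_apply, smul_apply] at this
  rw [this]; split_ifs <;> simp

lemma ext_Pi {x y : E} (h : ∀ k, Pi b blk k x = Pi b blk k y) : x = y := by
  refine b.ext_c fun i => ?_
  have := congrArg (b.c i) (h (blk i))
  simpa [c_Pi] using this

/-- block-diagonal operator -/
noncomputable def bd (G : ℕ → E →L[ℝ] E) : E →L[ℝ] E := b.lift fun i => G (blk i) (b.e i)

variable {blk} {G : ℕ → E →L[ℝ] E} {C : ℝ} (hG : ∀ k x, ‖G k x‖ ≤ C * ‖x‖)
include hG

lemma bd_e (i : I) : bd b blk G (b.e i) = G (blk i) (b.e i) := by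
  rw [bd, b.lift_e (C := C)]
  intro i
  exact (hG _ _).trans (by rw [b.norm_e, mul_one])

lemma bd_norm_le (x : E) : ‖bd b blk G x‖ ≤ C * ‖x‖ := by
  refine b.norm_le_of_e _ (fun i => ?_) x
  rw [bd_e b hG]
  exact (hG _ _).trans (by rw [b.norm_e, mul_one])

lemma bd_Pi (k : ℕ) (x : E) : bd b blk G (Pi b blk k x) = G k (Pi b blk k x) := by
  have : (bd b blk G).comp (Pi b blk k) = (G k).comp (Pi b blk k) := by
    refine b.ext_e fun i => ?_
    rw [ContinuousLinearMap.comp_apply, ContinuousLinearMap.comp_apply, Pi_e]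
    split_ifs with h
    · rw [bd_e b hG, h]
    · simp
  exact DFunLike.congr_fun this x

lemma Pi_bd (hc : ∀ k l, Commute (Pi b blk l) (G k)) (k : ℕ) (x : E) :
    Pi b blk k (bd b blk G x) = G k (Pi b blk k x) := by
  have : (Pi b blk k).comp (bd b blk G) = (G k).comp (Pi b blk k) := by
    refine b.ext_e fun i => ?_
    rw [ContinuousLinearMap.comp_apply, ContinuousLinearMap.comp_apply, bd_e b hG,
      ← mul_apply_eq_comp, (hc (blk i) k).eq, mul_apply_eq_comp, Pi_e]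
    split_ifs with h
    · rw [h]
    · simp
  exact DFunLike.congr_fun this x

end Sys

end Pool.Agent.X187.DP
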