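import Pool.Agent.X187.DP.Cn

namespace Pool.Agent.X187.DP

open Filter Topology Set MeasureTheory
open scoped Nat

variable {E : Type} [NormedAddCommGroup E] [NormedSpace ℝ E] [PartialOrder E]
  [CompleteSpace E] (b : L1Basis St E)

/-- values of the Dyson–Phillips terms -/
noncomputable def Wv : ℕ → ℝ → St → E
  | 0, t, i => Ex (SS b) (mm (sb i)) (max t 0) (b.e i)
  | 1, t, .c k j => P (mm k) (j + 1) (max t 0) • b.e (.s2 k)
  | 1, t, .s2 k => P (mm k) 1 (max t 0) • b.e (.s1 k)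
  | 1, t, .s1 k => Q (mm k) (qq k) 0 (max t 0) • b.e (.s0 k)
  | 1, _, .s0 _ => 0
  | 2, t, .c k j => P (mm k) (j + 2) (max t 0) • b.e (.s1 k)
  | 2, t, .s2 k => Q (mm k) (qq k) 1 (max t 0) • b.e (.s0 k)
  | 2, _, .s1 _ => 0
  | 2, _, .s0 _ => 0
  | 3, t, .c k j => Q (mm k) (qq k) (j + 2) (max t 0) • b.e (.s0 k)
  | 3, _, .s2 _ => 0
  | 3, _, .s1 _ => 0
  | 3, _, .s0 _ => 0
  | (_ + 4), _, _ => 0

/-- the Dyson–Phillips terms -/
noncomputable def WW (j : ℕ) (t : ℝ) : E →L[ℝ] E := b.lift (Wv b j t)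

lemma norm_P_smul (k i j : ℕ) (t : ℝ) (s : St) : ‖P (mm k) i (max t 0) • b.e s‖ ≤ 1 := by
  rw [norm_smul, b.norm_e, mul_one,
    Real.norm_of_nonneg (P_nonneg (mm_pos k).le (le_max_right _ _) _)]
  exact P_le_one (mm_pos k).le (le_max_right _ _) _

lemma norm_Q_smul (k i : ℕ) (t : ℝ) (s : St) : ‖Q (mm k) (qq k) i (max t 0) • b.e s‖ ≤ 1 := by
  rw [norm_smul, b.norm_e, mul_one,
    Real.norm_of_nonneg (Q_nonneg (mm_pos k).le (qq_pos k) (le_max_right _ _) _)]
  exact Q_le_one (mm_pos k).le (qq_pos k) (qq_le k) (le_max_right _ _) _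

lemma norm_Wv (j : ℕ) (t : ℝ) (i : St) : ‖Wv b j t i‖ ≤ 1 := by
  match j with
  | 0 =>
    have := Ex_norm_le (norm_SS b) (mm_pos (sb i)).le (le_max_right t 0) (b.e i)
    rw [b.norm_e] at this
    exact this
  | 1 =>
    rcases i with ⟨k, j⟩ | k | k | k
    · exact norm_P_smul b k _ 0 t _
    · exact norm_P_smul b k _ 0 t _
    · exact norm_Q_smul b k _ t _
    · simp [Wv]
  | 2 =>
    rcases i with ⟨k, j⟩ | k | k | k
    · exact norm_P_smul b k _ 0 t _
    · exact norm_Q_smul b k _ t _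
    · simp [Wv]
    · simp [Wv]
  | 3 =>
    rcases i with ⟨k, j⟩ | k | k | k
    · exact norm_Q_smul b k _ t _
    · simp [Wv]
    · simp [Wv]
    · simp [Wv]
  | (j + 4) => simp [Wv]

lemma cont_P (k i : ℕ) (s : St) : Continuous fun t => P (mm k) i (max t 0) • b.e s :=
  ((P_cont _ _).comp (continuous_id.max continuous_const)).smul continuous_const

lemma cont_Q (k i : ℕ) (s : St) : Continuous fun t => Q (mm k) (qq k) i (max t 0) • b.e s :=
  ((Q_cont (qq_pos k) _ _).comp (continuous_id.max continuous_const)).smul continuous_const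

lemma cont_Wv (j : ℕ) (i : St) : Continuous fun t => Wv b j t i := by
  match j with
  | 0 =>
    have h1 : Continuous fun u => Ex (SS b) (mm (sb i)) u (b.e i) :=
      continuous_iff_continuousAt.2 fun u => (Ex_hasDerivAt _ _ u (b.e i)).continuousAt
    exact h1.comp (continuous_id.max continuous_const)
  | 1 =>
    rcases i with ⟨k, j⟩ | k | k | k
    · exact cont_P b k _ _
    · exact cont_P b k _ _
    · exact cont_Q b k _ _
    · exact continuous_const
  | 2 =>
    rcases i with ⟨k, j⟩ | k | k | k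
    · exact cont_P b k _ _
    · exact cont_Q b k _ _
    · exact continuous_const
    · exact continuous_const
  | 3 =>
    rcases i with ⟨k, j⟩ | k | k | k
    · exact cont_Q b k _ _
    · exact continuous_const
    · exact continuous_const
    · exact continuous_const
  | (j + 4) => exact continuous_const

lemma WW_e (j : ℕ) (t : ℝ) (i : St) : WW b j t (b.e i) = Wv b j t i := b.lift_e (norm_Wv b j t) i

lemma WW_norm (j : ℕ) (t : ℝ) (x : E) : ‖WW b j t x‖ ≤ 1 * ‖x‖ :=
  b.norm_le_of_e _ (fun i => by rw [WW_e]; exact norm_Wv b j t i) x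

lemma WW_cont (j : ℕ) (x : E) : Continuous fun t => WW b j t x :=
  b.continuous_lift (norm_Wv b j) (cont_Wv b j) x

lemma WW_comm (j : ℕ) (t : ℝ) (k : ℕ) : Commute (Pi b sb k) (WW b j t) := by
  match j with
  | 0 =>
    refine comm_of b (fun k i hk => ?_) (fun k i hk => ?_) k
    all_goals
      rw [WW_e]
      show Pi b sb k (Ex (SS b) (mm (sb i)) (max t 0) (b.e i)) = _
      rw [← mul_apply_eq_comp, (commute_Ex (cSS b) _ k _).eq, mul_apply_eq_comp]
    · rw [Pi_pos b hk]; rfl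
    · rw [Pi_neg b hk, map_zero]
  | 1 =>
    refine comm_of b (fun k i hk => ?_) (fun k i hk => ?_) k <;> rw [WW_e] <;>
      rcases i with ⟨k', j⟩ | k' | k' | k' <;> simp only [Wv, map_smul, map_zero]
    · rw [Pi_pos b (i := .s2 k') hk]
    · rw [Pi_pos b (i := .s1 k') hk]
    · rw [Pi_pos b (i := .s0 k') hk]
    · rw [Pi_neg b (i := .s2 k') hk, smul_zero]
    · rw [Pi_neg b (i := .s1 k') hk, smul_zero]
    · rw [Pi_neg b (i := .s0 k') hk, smul_zero]
  | 2 =>
    refine comm_of b (fun k i hk => ?_) (fun k i hk => ?_) k <;> rw [WW_e] <;>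
      rcases i with ⟨k', j⟩ | k' | k' | k' <;> simp only [Wv, map_smul, map_zero]
    · rw [Pi_pos b (i := .s1 k') hk]
    · rw [Pi_pos b (i := .s0 k') hk]
    · rw [Pi_neg b (i := .s1 k') hk, smul_zero]
    · rw [Pi_neg b (i := .s0 k') hk, smul_zero]
  | 3 =>
    refine comm_of b (fun k i hk => ?_) (fun k i hk => ?_) k <;> rw [WW_e] <;>
      rcases i with ⟨k', j⟩ | k' | k' | k' <;> simp only [Wv, map_smul, map_zero]
    · rw [Pi_pos b (i := .s0 k') hk]
    · rw [Pi_neg b (i := .s0 k') hk, smul_zero]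
  | (j + 4) =>
    refine comm_of b (fun k i hk => ?_) (fun k i hk => ?_) k <;> rw [WW_e] <;>
      simp only [Wv, map_zero]

/-- the values of `B U(s)` on basis vectors -/
lemma DB_c (k j : ℕ) (s : ℝ) : mm k • LL b ((SS b - 1) (Ex (SS b) (mm k) s (b.e (.c k j))))
    = (mm k * P (mm k) j s) • b.e (.s2 k) := by
  rw [BG_c b (Ex_isPS _ _ _), smul_smul]; rfl
lemma DB_s2 (k : ℕ) (s : ℝ) : mm k • LL b ((SS b - 1) (Ex (SS b) (mm k) s (b.e (.s2 k))))
    = (mm k * P (mm k) 0 s) • b.e (.s1 k) := by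
  rw [BG_s2 b (Ex_isPS _ _ _), smul_smul]; rfl
lemma DB_s1 (k : ℕ) (s : ℝ) : mm k • LL b ((SS b - 1) (Ex (SS b) (mm k) s (b.e (.s1 k))))
    = (mm k * P (mm k) 0 s) • b.e (.s0 k) := by
  rw [BG_s1 b (Ex_isPS _ _ _), smul_smul]; rfl
lemma DB_s0 (k : ℕ) (s : ℝ) : mm k • LL b ((SS b - 1) (Ex (SS b) (mm k) s (b.e (.s0 k))))
    = 0 := by
  rw [BG_s0 b (Ex_isPS _ _ _), smul_zero]

lemma Ex_s2 (k : ℕ) (s : ℝ) : Ex (SS b) (mm k) s (b.e (.s2 k)) = P (mm k) 0 s • b.e (.s2 k) :=
  G_s2 b (Ex_isPS _ _ _) k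
lemma Ex_s1 (k : ℕ) (s : ℝ) : Ex (SS b) (mm k) s (b.e (.s1 k)) = P (mm k) 0 s • b.e (.s1 k) :=
  G_s1 b (Ex_isPS _ _ _) k
lemma Ex_s0 (k : ℕ) (s : ℝ) : Ex (SS b) (mm k) s (b.e (.s0 k))
    = Real.exp (-(s * (mm k * (1 - qq k)))) • b.e (.s0 k) := by
  refine G_s0 b (Ex_isPS _ _ _) k ?_
  have h2 := (NormedSpace.exp_series_hasSum_exp' (𝕂 := ℝ) (s * mm k * qq k)).mul_left
    (Real.exp (-(s * mm k)))
  rw [← Real.exp_eq_exp_ℝ, ← Real.exp_add] at h2
  convert! h2 using 1
  · funext n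
    rw [smul_eq_mul, mul_pow (s * mm k)]; ring
  · congr 1; ring

/-- evaluation of the integral of scalar multiples of a fixed vector -/
lemma int_smul {f g : ℝ → ℝ} {F : ℝ → E} {v : E} {t r : ℝ} (ht : 0 ≤ t)
    (hF : ∀ s, 0 ≤ s → s ≤ t → F s = (f s * g s) • v)
    (h : ∫ s in (0 : ℝ)..t, f s * g s = r) : r • v = ∫ s in (0 : ℝ)..t, F s := by
  rw [← h, ← intervalIntegral.integral_smul_const]
  refine int_congr fun s hs => ?_
  rw [uIoc_of_le ht] at hs
  exact (hF s hs.1.le hs.2).symm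

lemma key (j : ℕ) (t : ℝ) (ht : 0 ≤ t) (i : St) : WW b (j + 1) t (b.e i)
    = ∫ s in (0 : ℝ)..t,
      WW b j (t - s) (mm (sb i) • LL b ((SS b - 1) (Ex (SS b) (mm (sb i)) s (b.e i)))) := by
  have hmx : max t 0 = t := max_eq_left ht
  have hmx' : ∀ s, s ≤ t → max (t - s) 0 = t - s := fun s hs => max_eq_left (by linarith)
  rw [WW_e]
  match j with
  | 0 =>
    rcases i with ⟨k, j⟩ | k | k | k
    · simp only [sb_c, DB_c, zero_add, map_smul, WW_e, Wv, sb_s2, hmx]
      refine int_smul ht (f := fun s => mm k * P (mm k) j s) (g := fun s => P (mm k) 0 (t - s))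
        (fun s _ hs => ?_) (int_P0 _ _ _)
      rw [hmx' s hs, Ex_s2, smul_smul]
    · simp only [sb_s2, DB_s2, zero_add, map_smul, WW_e, Wv, sb_s1, hmx]
      refine int_smul ht (f := fun s => mm k * P (mm k) 0 s) (g := fun s => P (mm k) 0 (t - s))
        (fun s _ hs => ?_) (int_P0 _ _ _)
      rw [hmx' s hs, Ex_s1, smul_smul]
    · simp only [sb_s1, DB_s1, zero_add, map_smul, WW_e, Wv, sb_s0, hmx]
      refine int_smul ht (f := fun s => mm k * P (mm k) 0 s)
        (g := fun s => Real.exp (-((t - s) * (mm k * (1 - qq k)))))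
        (fun s _ hs => ?_) (int_Q (qq_pos k) _ _ _)
      rw [hmx' s hs, Ex_s0, smul_smul]
    · simp only [sb_s0, DB_s0, map_zero, intervalIntegral.integral_zero, zero_add, Wv]
  | 1 =>
    rcases i with ⟨k, j⟩ | k | k | k
    · simp only [sb_c, DB_c, Nat.reduceAdd, map_smul, WW_e, Wv, hmx]
      refine int_smul ht (f := fun s => mm k * P (mm k) j s) (g := fun s => P (mm k) 1 (t - s))
        (fun s _ hs => ?_) (int_P1 _ _ _)
      rw [hmx' s hs, smul_smul]
    · simp only [sb_s2, DB_s2, Nat.reduceAdd, map_smul, WW_e, Wv, hmx]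
      refine int_smul ht (f := fun s => mm k * P (mm k) 0 s)
        (g := fun s => Q (mm k) (qq k) 0 (t - s))
        (fun s _ hs => ?_) (int_Q0 (qq_pos k) _ _ _)
      rw [hmx' s hs, smul_smul]
    · simp only [sb_s1, DB_s1, Nat.reduceAdd, map_smul, WW_e, Wv, smul_zero,
        intervalIntegral.integral_zero]
    · simp only [sb_s0, DB_s0, map_zero, intervalIntegral.integral_zero, Nat.reduceAdd, Wv]
  | 2 =>
    rcases i with ⟨k, j⟩ | k | k | k
    · simp only [sb_c, DB_c, Nat.reduceAdd, map_smul, WW_e, Wv, hmx]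
      refine int_smul ht (f := fun s => mm k * P (mm k) j s)
        (g := fun s => Q (mm k) (qq k) 1 (t - s))
        (fun s _ hs => ?_) (int_Q1 (qq_pos k) _ _ _)
      rw [hmx' s hs, smul_smul]
    · simp only [sb_s2, DB_s2, Nat.reduceAdd, map_smul, WW_e, Wv, smul_zero,
        intervalIntegral.integral_zero]
    · simp only [sb_s1, DB_s1, Nat.reduceAdd, map_smul, WW_e, Wv, smul_zero,
        intervalIntegral.integral_zero]
    · simp only [sb_s0, DB_s0, map_zero, intervalIntegral.integral_zero, Nat.reduceAdd, Wv]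
  | 3 =>
    rcases i with ⟨k, j⟩ | k | k | k
    · simp only [sb_c, DB_c, Nat.reduceAdd, map_smul, WW_e, Wv, smul_zero,
        intervalIntegral.integral_zero]
    · simp only [sb_s2, DB_s2, Nat.reduceAdd, map_smul, WW_e, Wv, smul_zero,
        intervalIntegral.integral_zero]
    · simp only [sb_s1, DB_s1, Nat.reduceAdd, map_smul, WW_e, Wv, smul_zero,
        intervalIntegral.integral_zero]
    · simp only [sb_s0, DB_s0, map_zero, intervalIntegral.integral_zero, Nat.reduceAdd, Wv]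
  | (j + 4) =>
    rcases i with ⟨k, j⟩ | k | k | k
    · simp only [sb_c, DB_c, map_smul, WW_e, Wv, smul_zero,
        intervalIntegral.integral_zero]
    · simp only [sb_s2, DB_s2, map_smul, WW_e, Wv, smul_zero,
        intervalIntegral.integral_zero]
    · simp only [sb_s1, DB_s1, map_smul, WW_e, Wv, smul_zero,
        intervalIntegral.integral_zero]
    · simp only [sb_s0, DB_s0, map_zero, intervalIntegral.integral_zero, Wv]

/-- the semigroup `U` -/
noncomputable def UU (t : ℝ) : E →L[ℝ] E := Ug b sb mm (SS b) t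
/-- the perturbation `B` -/
noncomputable def BB (x : E) : E := Bg (UU b) (LL b) x

theorem setting : Setting (UU b) (BB b) :=
  setting_of (fun k => (mm_pos k).le) (norm_SS b) (cSS b) (pos_SS b) (cLL b) (pB b) (nK b)

theorem dyson : IsDysonPhillips (UU b) (BB b) (WW b) :=
  dp_of (fun k => (mm_pos k).le) (norm_SS b) (cSS b) (cLL b) (fun _ _ => rfl) (WW_norm b)
    (WW_cont b) (WW_comm b) (key b)

end Pool.Agent.X187.DP
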